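import Mathlib

set_option autoImplicit false

namespace Pool.Agent.CatVal

open Finset

/-- The exponent of `p` in the central binomial coefficient of `N`. -/
def cc (p N : ℕ) : ℕ := padicValNat p (Nat.centralBinom N)

/-- The number of indices `1 ≤ i ≤ n` for which `⌊w / p ^ i⌋` is odd. -/
def gs (p n w : ℕ) : ℕ := ∑ i ∈ range n, (w / p ^ (i + 1)) % 2

lemma div_mod_two {p : ℕ} (hp : 0 < p) (N : ℕ) :
    (2 * N / p) % 2 = if p ≤ 2 * (N % p) then 1 else 0 := by
  have h1 : 2 * N = 2 * (N % p) + p * (2 * (N / p)) := by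
    have := Nat.mod_add_div N p
    nlinarith
  rw [h1, Nat.add_mul_div_left _ _ hp, Nat.add_mul_mod_self_left]
  have hlt : N % p < p := Nat.mod_lt _ hp
  have h2 : 2 * (N % p) / p < 2 := by
    rw [Nat.div_lt_iff_lt_mul hp]; omega
  split_ifs with h
  · have : 1 ≤ 2 * (N % p) / p := by
      rw [Nat.le_div_iff_mul_le hp]; omega
    omega
  · have : 2 * (N % p) / p = 0 := by
      apply Nat.div_eq_of_lt; omega
    omega

lemma cc_eq_gs {p : ℕ} (hp : p.Prime) {N n : ℕ} (hN : N < p ^ n) :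
    cc p N = gs p n (2 * N) := by
  have : Fact p.Prime := ⟨hp⟩
  have hlog : Nat.log p (2 * N) < n + 1 := by
    apply Nat.log_lt_of_lt_pow'
    · omega
    · calc 2 * N < 2 * p ^ n := by omega
        _ ≤ p * p ^ n := Nat.mul_le_mul_right _ hp.two_le
        _ = p ^ (n + 1) := by ring
  have h := padicValNat_choose (p := p) (n := 2 * N) (k := N) (b := n + 1) (by omega) hlog
  unfold cc gs
  rw [Nat.centralBinom_eq_two_mul_choose, h, Finset.card_filter]
  rw [Finset.sum_Ico_eq_sum_range]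
  simp only [Nat.add_sub_cancel]
  apply Finset.sum_congr rfl
  intro i _
  have e : 2 * N - N = N := by omega
  rw [e, div_mod_two (pow_pos hp.pos _)]
  rw [show N % p ^ (1 + i) + N % p ^ (1 + i) = 2 * (N % p ^ (i + 1)) by rw [add_comm 1 i]; ring,
    add_comm 1 i]

lemma gs_add (p x k w : ℕ) : gs p (x + k) w = gs p x w + gs p k (w / p ^ x) := by
  unfold gs
  rw [Finset.sum_range_add]
  congr 1
  apply Finset.sum_congr rfl
  intro i _
  rw [Nat.div_div_eq_div_mul, ← pow_add]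
  ring_nf

lemma gs_add_mul {p : ℕ} (hp : 0 < p) (x w m : ℕ) : gs p x (w + 2 * p ^ x * m) = gs p x w := by
  unfold gs
  apply Finset.sum_congr rfl
  intro i hi
  have hi' : i + 1 ≤ x := by simpa using hi
  obtain ⟨d, rfl⟩ := Nat.exists_eq_add_of_le hi'
  have : w + 2 * p ^ (i + 1 + d) * m = w + p ^ (i + 1) * (2 * (p ^ d * m)) := by ring
  rw [this, Nat.add_mul_div_left _ _ (pow_pos hp _), Nat.add_mul_mod_self_left]

lemma gs_zero_of_lt {p n w : ℕ} (hp : 1 < p) (hw : w < p) : gs p n w = 0 := by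
  unfold gs
  apply Finset.sum_eq_zero
  intro i _
  have h : w < p ^ (i + 1) := by
    calc w < p := hw
      _ = p ^ 1 := (pow_one p).symm
      _ ≤ p ^ (i + 1) := Nat.pow_le_pow_right (by omega) (by omega)
  rw [Nat.div_eq_of_lt h, Nat.zero_mod]

lemma gs_le (p n w : ℕ) : gs p n w ≤ n := by
  unfold gs
  calc ∑ i ∈ range n, (w / p ^ (i + 1)) % 2 ≤ ∑ _i ∈ range n, 1 :=
        Finset.sum_le_sum (fun i _ => by omega)
    _ = n := by simp

lemma cc_le {p : ℕ} (hp : p.Prime) {N n : ℕ} (hN : N < p ^ n) : cc p N ≤ n := by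
  rw [cc_eq_gs hp hN]; exact gs_le _ _ _

/-- Additivity over separated blocks. -/
lemma cc_add {p : ℕ} (hp : p.Prime) {r w : ℕ} (m : ℕ) (hr : 2 * r < p ^ w) :
    cc p (r + p ^ w * m) = cc p r + cc p m := by
  obtain ⟨k, hk⟩ : ∃ k, m < p ^ k := ⟨m, Nat.lt_pow_self hp.one_lt⟩
  have h1 : r + p ^ w * m < p ^ (w + k) := by
    have : p ^ w * (m + 1) ≤ p ^ w * p ^ k := Nat.mul_le_mul_left _ hk
    rw [pow_add]; nlinarith
  rw [cc_eq_gs hp h1, gs_add]
  have h2 : 2 * (r + p ^ w * m) = 2 * r + 2 * p ^ w * m := by ring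
  rw [h2, gs_add_mul hp.pos]
  have h3 : (2 * r + 2 * p ^ w * m) / p ^ w = 2 * m := by
    have : 2 * r + 2 * p ^ w * m = 2 * r + p ^ w * (2 * m) := by ring
    rw [this, Nat.add_mul_div_left _ _ (pow_pos hp.pos _), Nat.div_eq_of_lt hr]; omega
  rw [h3, ← cc_eq_gs hp hk, ← cc_eq_gs hp (show r < p ^ w by omega)]

lemma cc_zero (p : ℕ) : cc p 0 = 0 := by
  unfold cc; simp

lemma cc_pow_mul {p : ℕ} (hp : p.Prime) (w m : ℕ) : cc p (p ^ w * m) = cc p m := by
  have := cc_add hp (r := 0) (w := w) m (by simpa using pow_pos hp.pos w)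
  simpa [cc_zero] using this

/-- `cc p (p ^ q - 1) = q`. -/
lemma cc_pow_sub_one {p : ℕ} (hp : p.Prime) (q : ℕ) : cc p (p ^ q - 1) = q := by
  have hpos : 0 < p ^ q := pow_pos hp.pos q
  rw [cc_eq_gs hp (show p ^ q - 1 < p ^ q by omega)]
  unfold gs
  rw [Finset.sum_eq_card_nsmul (b := 1)]
  · simp
  · intro i hi
    have hi' : i + 1 ≤ q := by simpa using hi
    rw [div_mod_two (pow_pos hp.pos _), if_pos]
    obtain ⟨d, rfl⟩ := Nat.exists_eq_add_of_le hi'
    have hd : 0 < p ^ d := pow_pos hp.pos d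
    have hi0 : 0 < p ^ (i + 1) := pow_pos hp.pos _
    have e : p ^ (i + 1 + d) - 1 = (p ^ (i + 1) - 1) + p ^ (i + 1) * (p ^ d - 1) := by
      rw [pow_add, Nat.mul_sub, mul_one]
      have : p ^ (i + 1) ≤ p ^ (i + 1) * p ^ d := Nat.le_mul_of_pos_right _ hd
      omega
    rw [e, Nat.add_mul_mod_self_left, Nat.mod_eq_of_lt (by omega)]
    have : 2 ≤ p ^ (i + 1) := by
      calc 2 ≤ p := hp.two_le
        _ = p ^ 1 := (pow_one p).symm
        _ ≤ p ^ (i + 1) := Nat.pow_le_pow_right hp.pos (by omega)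
    omega

/-! ### Valuations of Catalan numbers -/

lemma centralBinom_succ_eq (n : ℕ) :
    Nat.centralBinom (n + 1) = 2 * (2 * n + 1) * catalan n := by
  have h1 := Nat.succ_mul_centralBinom_succ n
  have h2 : (n + 1) * catalan n = n.centralBinom := succ_mul_catalan_eq_centralBinom n
  have h3 : (n + 1) * Nat.centralBinom (n + 1) = (n + 1) * (2 * (2 * n + 1) * catalan n) := by
    rw [h1, ← h2]; ring
  exact Nat.eq_of_mul_eq_mul_left (Nat.succ_pos n) h3

lemma catalan_ne_zero (n : ℕ) : catalan n ≠ 0 := by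
  intro h
  have h2 : (n + 1) * catalan n = n.centralBinom := succ_mul_catalan_eq_centralBinom n
  rw [h, mul_zero] at h2
  exact Nat.centralBinom_ne_zero n h2.symm

lemma val_two_catalan (n : ℕ) : cc 2 (n + 1) = padicValNat 2 (catalan n) + 1 := by
  have : Fact (Nat.Prime 2) := ⟨Nat.prime_two⟩
  unfold cc
  rw [centralBinom_succ_eq, padicValNat.mul (by omega) (catalan_ne_zero n),
    padicValNat.mul (by omega) (by omega)]
  have h1 : padicValNat 2 2 = 1 := padicValNat_self
  have h2 : padicValNat 2 (2 * n + 1) = 0 := padicValNat.eq_zero_of_not_dvd (by omega)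
  rw [h1, h2]; ring

lemma val_three_catalan (n : ℕ) (h : 3 ∣ n + 1) : cc 3 (n + 1) = padicValNat 3 (catalan n) := by
  have : Fact (Nat.Prime 3) := ⟨Nat.prime_three⟩
  unfold cc
  rw [centralBinom_succ_eq, padicValNat.mul (by omega) (catalan_ne_zero n),
    padicValNat.mul (by omega) (by omega)]
  have h1 : padicValNat 3 2 = 0 := padicValNat.eq_zero_of_not_dvd (by omega)
  have h2 : padicValNat 3 (2 * n + 1) = 0 := padicValNat.eq_zero_of_not_dvd (by omega)
  rw [h1, h2]; ring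

end Pool.Agent.CatVal
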