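import Pool.Agent.CatVal.Moment

set_option autoImplicit false

namespace Pool.Agent.CatVal

open Finset

lemma sum_affine_mod_le {P E u T : ℕ} (hP : 0 < P) (hE : Nat.Coprime E P) (F : ℕ → ℤ)
    (hF : ∀ r, 0 ≤ F r) :
    ∑ t ∈ range T, F ((u + E * t) % P) ≤ ((T / P + 1 : ℕ) : ℤ) * ∑ r ∈ range P, F r := by
  have hT : T ≤ P * (T / P + 1) := by
    have := Nat.div_add_mod T P
    have := Nat.mod_lt T hP
    nlinarith
  have hbij : ∑ d ∈ range P, F ((u + E * d) % P) = ∑ r ∈ range P, F r := by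
    have hinj : Set.InjOn (fun d => (u + E * d) % P) (range P : Set ℕ) := by
      intro a ha b hb hab
      have ha' : a < P := by simpa using ha
      have hb' : b < P := by simpa using hb
      have h1 : u + E * a ≡ u + E * b [MOD P] := hab
      have h2 : E * a ≡ E * b [MOD P] := Nat.ModEq.add_left_cancel' u h1
      have h3 : a ≡ b [MOD P] := Nat.ModEq.cancel_left_of_coprime (by
        rw [Nat.gcd_comm]; exact hE) h2
      have h4 : a % P = b % P := h3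
      rwa [Nat.mod_eq_of_lt ha', Nat.mod_eq_of_lt hb'] at h4
    have himg : (range P).image (fun d => (u + E * d) % P) = range P := by
      apply Finset.eq_of_subset_of_card_le
      · intro y hy
        simp only [Finset.mem_image, Finset.mem_range] at hy ⊢
        obtain ⟨d, _, rfl⟩ := hy
        exact Nat.mod_lt _ hP
      · rw [Finset.card_image_of_injOn hinj]
    conv_rhs => rw [← himg]
    rw [Finset.sum_image hinj]
  calc ∑ t ∈ range T, F ((u + E * t) % P)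
      ≤ ∑ t ∈ range (P * (T / P + 1)), F ((u + E * t) % P) := by
        apply Finset.sum_le_sum_of_subset_of_nonneg
        · exact Finset.range_subset_range.mpr hT
        · intro i _ _; exact hF _
    _ = ∑ a ∈ range (T / P + 1), ∑ d ∈ range P, F ((u + E * (P * a + d)) % P) := by
        rw [sum_range_mul]
    _ = ∑ a ∈ range (T / P + 1), ∑ r ∈ range P, F r := by
        apply Finset.sum_congr rfl
        intro a _
        rw [← hbij]
        apply Finset.sum_congr rfl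
        intro d _
        have : u + E * (P * a + d) = (u + E * d) + P * (E * a) := by ring
        rw [this, Nat.add_mul_mod_self_left]
    _ = _ := by simp

lemma card_fiber_le {P E u T v : ℕ} (hP : 0 < P) (hE : 0 < E) :
    ((range T).filter (fun t => 2 * (u + E * t) / P = v)).card ≤ P / (2 * E) + 1 := by
  set S := (range T).filter (fun t => 2 * (u + E * t) / P = v) with hS
  rcases S.eq_empty_or_nonempty with h | h
  · rw [h]; simp
  · have hm := S.min'_mem h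
    set m := S.min' h with hmdef
    have hsub : S ⊆ Finset.Icc m (m + P / (2 * E)) := by
      intro t ht
      rw [Finset.mem_Icc]
      refine ⟨S.min'_le t ht, ?_⟩
      have hmt : m ≤ t := S.min'_le t ht
      obtain ⟨d, rfl⟩ := Nat.exists_eq_add_of_le hmt
      have h1 : 2 * (u + E * m) / P = v := by
        have := hm; rw [hS, Finset.mem_filter] at this; exact this.2
      have h2 : 2 * (u + E * (m + d)) / P = v := by
        have := ht; rw [hS, Finset.mem_filter] at this; exact this.2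
      have h3 : v * P ≤ 2 * (u + E * m) := by
        rw [← h1]; exact Nat.div_mul_le_self _ _
      have h4 : 2 * (u + E * (m + d)) < (v + 1) * P := by
        rw [← h2]
        have h7 := Nat.div_add_mod (2 * (u + E * (m + d))) P
        have h8 := Nat.mod_lt (2 * (u + E * (m + d))) hP
        nlinarith
      have h5 : d * (2 * E) ≤ P := by nlinarith
      have h6 : d ≤ P / (2 * E) := (Nat.le_div_iff_mul_le (by omega)).mpr h5
      omega
    calc S.card ≤ (Finset.Icc m (m + P / (2 * E))).card := Finset.card_le_card hsub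
      _ = P / (2 * E) + 1 := by
          rw [Nat.card_Icc]
          generalize P / (2 * E) = c
          omega

lemma sum_top_le {P E u T V : ℕ} (hP : 0 < P) (hE : 0 < E) (F : ℕ → ℤ) (hF : ∀ r, 0 ≤ F r)
    (hV : ∀ t < T, 2 * (u + E * t) / P < V) :
    ∑ t ∈ range T, F (2 * (u + E * t) / P) ≤
      ((P / (2 * E) + 1 : ℕ) : ℤ) * ∑ v ∈ range V, F v := by
  have hmaps : ∀ t ∈ range T, 2 * (u + E * t) / P ∈ range V := by
    intro t ht; simpa using hV t (by simpa using ht)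
  rw [← Finset.sum_fiberwise_of_maps_to hmaps, Finset.mul_sum]
  apply Finset.sum_le_sum
  intro v _
  have h1 : ∑ t ∈ (range T).filter (fun t => 2 * (u + E * t) / P = v), F (2 * (u + E * t) / P) =
      ∑ t ∈ (range T).filter (fun t => 2 * (u + E * t) / P = v), F v := by
    apply Finset.sum_congr rfl
    intro t ht
    rw [(Finset.mem_filter.mp ht).2]
  rw [h1, Finset.sum_const, nsmul_eq_mul]
  apply mul_le_mul_of_nonneg_right _ (hF v)
  exact_mod_cast card_fiber_le hP hE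

lemma G_two_mul_mod {p : ℕ} (hp : 0 < p) (x z : ℕ) : G p x (2 * z) = G p x (2 * (z % p ^ x)) := by
  unfold G
  have : 2 * z = 2 * (z % p ^ x) + 2 * p ^ x * (z / p ^ x) := by
    have := Nat.mod_add_div z (p ^ x)
    nlinarith
  conv_lhs => rw [this]
  rw [gs_add_mul hp]

/-- Second moment of the signed count along an arithmetic progression. -/
lemma sum_G_sq_AP {p : ℕ} {s : ℤ} (hp : 0 < p) (hs : IsVar p s) {E u T x k : ℕ}
    (hE : Nat.Coprime E (p ^ x)) (hE0 : 0 < E) (hz : ∀ t < T, u + E * t < p ^ (x + k)) :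
    ∑ t ∈ range T, G p (x + k) (2 * (u + E * t)) ^ 2 ≤
      2 * (((T / p ^ x + 1 : ℕ) : ℤ) * (p ^ x * (s * x))) +
      2 * (((p ^ x / (2 * E) + 1 : ℕ) : ℤ) * (2 * p ^ k * (s * k))) := by
  have hPpos : 0 < p ^ x := pow_pos hp x
  have h1 : ∀ t ∈ range T, G p (x + k) (2 * (u + E * t)) ^ 2 ≤
      2 * G p x (2 * ((u + E * t) % p ^ x)) ^ 2 + 2 * G p k (2 * (u + E * t) / p ^ x) ^ 2 := by
    intro t _
    rw [G_add, G_two_mul_mod hp]
    nlinarith [sq_nonneg (G p x (2 * ((u + E * t) % p ^ x)) - G p k (2 * (u + E * t) / p ^ x))]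
  refine (Finset.sum_le_sum h1).trans ?_
  rw [Finset.sum_add_distrib, ← Finset.mul_sum, ← Finset.mul_sum]
  apply add_le_add
  · apply mul_le_mul_of_nonneg_left _ (by norm_num)
    refine (sum_affine_mod_le hPpos hE (fun r => G p x (2 * r) ^ 2) (fun r => sq_nonneg _)).trans ?_
    apply mul_le_mul_of_nonneg_left (sum_even_le hp hs x) (by positivity)
  · apply mul_le_mul_of_nonneg_left _ (by norm_num)
    refine (sum_top_le (V := 2 * p ^ k) hPpos hE0 (fun v => G p k v ^ 2)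
      (fun r => sq_nonneg _) ?_).trans ?_
    · intro t ht
      rw [Nat.div_lt_iff_lt_mul hPpos]
      have := hz t ht
      rw [pow_add] at this
      nlinarith
    · apply mul_le_mul_of_nonneg_left (hs k) (by positivity)

lemma two_cc_sub {p : ℕ} (hp : p.Prime) {N n : ℕ} (hN : N < p ^ n) :
    2 * (cc p N : ℤ) - n = G p n (2 * N) := by
  rw [cc_eq_gs hp hN]; rfl

lemma exists_mul_modEq {a m : ℕ} (hm : 1 < m) (h : Nat.Coprime a m) (c : ℕ) :
    ∃ t, a * t ≡ c [MOD m] := by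
  obtain ⟨b, hb⟩ := Nat.exists_mul_mod_eq_one_of_coprime h hm
  refine ⟨b * c, ?_⟩
  have h1 : a * b ≡ 1 [MOD m] := by
    show a * b % m = 1 % m
    rw [hb.2, Nat.mod_eq_of_lt hm]
  have h2 := h1.mul_right c
  rw [one_mul, mul_assoc] at h2
  exact h2

/-- Simultaneous approximation: a multiple of `2 ^ A * 3 ^ B` whose two valuations are close to
prescribed values. -/
theorem core (A B X Y x k y l T R : ℕ) (hX : 1 ≤ X) (hY : 1 ≤ Y) (hT : 0 < T)
    (h2 : 3 ^ (B + Y) * T ≤ 2 ^ (x + k)) (h3 : 2 ^ (A + X) * T ≤ 3 ^ (y + l))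
    (hR : 2 * ((T / 2 ^ x + 1) * (2 ^ x * x)) +
          2 * ((2 ^ x / (2 * 3 ^ (B + Y)) + 1) * (2 * 2 ^ k * k)) +
          (2 * ((T / 3 ^ y + 1) * (3 ^ y * (2 * y))) +
          2 * ((3 ^ y / (2 * 2 ^ (A + X)) + 1) * (2 * 3 ^ l * (2 * l)))) ≤ R ^ 2 * T)
    (q q' : ℕ) (hq : q < X) (hq' : q' < Y) :
    ∃ M, 2 ^ A * 3 ^ B ∣ M ∧ M < 2 ^ (A + X) * 3 ^ (B + Y) * T ∧
      |2 * (cc 2 M : ℤ) - 2 * q - (x + k)| ≤ R ∧ |2 * (cc 3 M : ℤ) - 2 * q' - (y + l)| ≤ R := by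
  -- choice of the starting point
  obtain ⟨a, ha⟩ := exists_mul_modEq (a := 3 ^ B) (m := 2 ^ X)
    (Nat.one_lt_two_pow (by omega)) (Nat.Coprime.pow _ _ (by norm_num)) (2 ^ q - 1)
  obtain ⟨b, hb⟩ := exists_mul_modEq (a := 2 ^ A) (m := 3 ^ Y)
    (Nat.one_lt_pow (by omega) (by norm_num)) (Nat.Coprime.pow _ _ (by norm_num)) (3 ^ q' - 1)
  have hco : Nat.Coprime (2 ^ X) (3 ^ Y) := Nat.Coprime.pow _ _ (by norm_num)
  obtain ⟨t0, ht0a, ht0b, ht0lt⟩ : ∃ t0, t0 ≡ a [MOD 2 ^ X] ∧ t0 ≡ b [MOD 3 ^ Y] ∧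
      t0 < 2 ^ X * 3 ^ Y := by
    refine ⟨(Nat.chineseRemainder hco a b).1, (Nat.chineseRemainder hco a b).2.1,
      (Nat.chineseRemainder hco a b).2.2, ?_⟩
    exact Nat.chineseRemainder_lt_mul hco a b (by positivity) (by positivity)
  have hq1 : 2 * (2 ^ q - 1) < 2 ^ X := by
    have : 2 ^ (q + 1) ≤ 2 ^ X := Nat.pow_le_pow_right (by norm_num) hq
    have h0 : 0 < 2 ^ q := by positivity
    rw [pow_succ] at this; omega
  have hq1' : 2 * (3 ^ q' - 1) < 3 ^ Y := by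
    have : 3 ^ (q' + 1) ≤ 3 ^ Y := Nat.pow_le_pow_right (by norm_num) hq'
    have h0 : 0 < 3 ^ q' := by positivity
    rw [pow_succ] at this; omega
  have e2 : 3 ^ B * t0 = (2 ^ q - 1) + 2 ^ X * (3 ^ B * t0 / 2 ^ X) := by
    have h1 : 3 ^ B * t0 ≡ 2 ^ q - 1 [MOD 2 ^ X] := (ht0a.mul_left _).trans ha
    have h2 : (3 ^ B * t0) % 2 ^ X = 2 ^ q - 1 := by
      rw [h1, Nat.mod_eq_of_lt (by omega)]
    have h3 := Nat.mod_add_div (3 ^ B * t0) (2 ^ X)
    rw [h2] at h3; exact h3.symm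
  have e3 : 2 ^ A * t0 = (3 ^ q' - 1) + 3 ^ Y * (2 ^ A * t0 / 3 ^ Y) := by
    have h1 : 2 ^ A * t0 ≡ 3 ^ q' - 1 [MOD 3 ^ Y] := (ht0b.mul_left _).trans hb
    have h2 : (2 ^ A * t0) % 3 ^ Y = 3 ^ q' - 1 := by
      rw [h1, Nat.mod_eq_of_lt (by omega)]
    have h3 := Nat.mod_add_div (2 ^ A * t0) (3 ^ Y)
    rw [h2] at h3; exact h3.symm
  set u2 := 3 ^ B * t0 / 2 ^ X with hu2
  set u3 := 2 ^ A * t0 / 3 ^ Y with hu3
  have hu2lt : u2 < 3 ^ (B + Y) := by
    rw [hu2, Nat.div_lt_iff_lt_mul (by positivity)]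
    calc 3 ^ B * t0 < 3 ^ B * (2 ^ X * 3 ^ Y) := Nat.mul_lt_mul_of_pos_left ht0lt (by positivity)
      _ = 3 ^ (B + Y) * 2 ^ X := by rw [pow_add]; ring
  have hu3lt : u3 < 2 ^ (A + X) := by
    rw [hu3, Nat.div_lt_iff_lt_mul (by positivity)]
    calc 2 ^ A * t0 < 2 ^ A * (2 ^ X * 3 ^ Y) := Nat.mul_lt_mul_of_pos_left ht0lt (by positivity)
      _ = 2 ^ (A + X) * 3 ^ Y := by rw [pow_add]; ring
  have hz2 : ∀ t < T, u2 + 3 ^ (B + Y) * t < 2 ^ (x + k) := by
    intro t ht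
    calc u2 + 3 ^ (B + Y) * t < 3 ^ (B + Y) * (t + 1) := by rw [Nat.mul_succ]; omega
      _ ≤ 3 ^ (B + Y) * T := Nat.mul_le_mul_left _ ht
      _ ≤ _ := h2
  have hz3 : ∀ t < T, u3 + 2 ^ (A + X) * t < 3 ^ (y + l) := by
    intro t ht
    calc u3 + 2 ^ (A + X) * t < 2 ^ (A + X) * (t + 1) := by rw [Nat.mul_succ]; omega
      _ ≤ 2 ^ (A + X) * T := Nat.mul_le_mul_left _ ht
      _ ≤ _ := h3
  have S2 := sum_G_sq_AP (p := 2) (by norm_num) isVar_two (E := 3 ^ (B + Y)) (u := u2) (T := T)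
    (x := x) (k := k) (Nat.Coprime.pow _ _ (by norm_num)) (by positivity) hz2
  have S3 := sum_G_sq_AP (p := 3) (by norm_num) isVar_three (E := 2 ^ (A + X)) (u := u3) (T := T)
    (x := y) (k := l) (Nat.Coprime.pow _ _ (by norm_num)) (by positivity) hz3
  have hR' : (2 * (((T / 2 ^ x + 1 : ℕ) : ℤ) * (2 ^ x * (1 * x))) +
      2 * (((2 ^ x / (2 * 3 ^ (B + Y)) + 1 : ℕ) : ℤ) * (2 * 2 ^ k * (1 * k)))) +
      (2 * (((T / 3 ^ y + 1 : ℕ) : ℤ) * (3 ^ y * (2 * y))) +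
      2 * (((3 ^ y / (2 * 2 ^ (A + X)) + 1 : ℕ) : ℤ) * (2 * 3 ^ l * (2 * l)))) ≤ R ^ 2 * T := by
    have := hR
    zify at this
    push_cast
    linarith
  have hsum : ∑ t ∈ range T, (G 2 (x + k) (2 * (u2 + 3 ^ (B + Y) * t)) ^ 2 +
      G 3 (y + l) (2 * (u3 + 2 ^ (A + X) * t)) ^ 2) ≤ ∑ _t ∈ range T, (R : ℤ) ^ 2 := by
    rw [Finset.sum_add_distrib, Finset.sum_const, Finset.card_range, nsmul_eq_mul]
    push_cast at S2 S3 hR'
    linarith
  obtain ⟨t, ht, hle⟩ := Finset.exists_le_of_sum_le (Finset.nonempty_range_iff.mpr (by omega)) hsum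
  have ht' : t < T := by simpa using ht
  refine ⟨2 ^ A * 3 ^ B * (t0 + 2 ^ X * 3 ^ Y * t), Dvd.intro _ rfl, ?_, ?_, ?_⟩
  · calc 2 ^ A * 3 ^ B * (t0 + 2 ^ X * 3 ^ Y * t)
        < 2 ^ A * 3 ^ B * (2 ^ X * 3 ^ Y * (t + 1)) := by
          apply Nat.mul_lt_mul_of_pos_left _ (by positivity)
          rw [Nat.mul_succ]; omega
      _ ≤ 2 ^ A * 3 ^ B * (2 ^ X * 3 ^ Y * T) :=
          Nat.mul_le_mul_left _ (Nat.mul_le_mul_left _ ht')
      _ = _ := by rw [pow_add, pow_add]; ring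
  · have c1 : cc 2 (2 ^ A * 3 ^ B * (t0 + 2 ^ X * 3 ^ Y * t)) =
        q + cc 2 (u2 + 3 ^ (B + Y) * t) := by
      have e : 2 ^ A * 3 ^ B * (t0 + 2 ^ X * 3 ^ Y * t) =
          2 ^ A * ((2 ^ q - 1) + 2 ^ X * (u2 + 3 ^ (B + Y) * t)) := by
        calc 2 ^ A * 3 ^ B * (t0 + 2 ^ X * 3 ^ Y * t)
            = 2 ^ A * (3 ^ B * t0 + 2 ^ X * (3 ^ (B + Y) * t)) := by rw [pow_add]; ring
          _ = _ := by rw [e2]; ring
      rw [e, cc_pow_mul Nat.prime_two, cc_add Nat.prime_two _ hq1, cc_pow_sub_one Nat.prime_two]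
    have c2 := two_cc_sub Nat.prime_two (hz2 t ht')
    rw [c1]
    have c3 : G 2 (x + k) (2 * (u2 + 3 ^ (B + Y) * t)) ^ 2 ≤ (R : ℤ) ^ 2 :=
      le_trans (le_add_of_nonneg_right (sq_nonneg _)) hle
    have c4 := abs_le_of_sq_le_sq' c3 (by positivity)
    rw [← c2] at c4
    rw [abs_le]
    obtain ⟨c5, c6⟩ := c4
    clear c3 c2 hle ht hsum hR' S2 S3
    push_cast at c5 c6 ⊢
    constructor <;> linarith
  · have c1 : cc 3 (2 ^ A * 3 ^ B * (t0 + 2 ^ X * 3 ^ Y * t)) =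
        q' + cc 3 (u3 + 2 ^ (A + X) * t) := by
      have e : 2 ^ A * 3 ^ B * (t0 + 2 ^ X * 3 ^ Y * t) =
          3 ^ B * ((3 ^ q' - 1) + 3 ^ Y * (u3 + 2 ^ (A + X) * t)) := by
        calc 2 ^ A * 3 ^ B * (t0 + 2 ^ X * 3 ^ Y * t)
            = 3 ^ B * (2 ^ A * t0 + 3 ^ Y * (2 ^ (A + X) * t)) := by rw [pow_add]; ring
          _ = _ := by rw [e3]; ring
      rw [e, cc_pow_mul Nat.prime_three, cc_add Nat.prime_three _ hq1',
        cc_pow_sub_one Nat.prime_three]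
    have c2 := two_cc_sub Nat.prime_three (hz3 t ht')
    rw [c1]
    have c3 : G 3 (y + l) (2 * (u3 + 2 ^ (A + X) * t)) ^ 2 ≤ (R : ℤ) ^ 2 :=
      le_trans (le_add_of_nonneg_left (sq_nonneg _)) hle
    have c4 := abs_le_of_sq_le_sq' c3 (by positivity)
    rw [← c2] at c4
    rw [abs_le]
    obtain ⟨c5, c6⟩ := c4
    clear c3 c2 hle ht hsum hR' S2 S3
    push_cast at c5 c6 ⊢
    constructor <;> linarith

end Pool.Agent.CatVal
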