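import Pool.Agent.CatVal.Seed

set_option autoImplicit false

namespace Pool.Agent.CatVal

lemma growth (n : ℕ) : ∃ c d, Sq (8 ^ (n + 1) * 400) (8 ^ n * 400) c d := by
  induction n with
  | zero =>
    have h := step (A := 400) (R := 143) (by norm_num) (by norm_num) seed2
    simpa using h
  | succ n ih =>
    obtain ⟨c, d, h⟩ := ih
    have h8 : 1 ≤ 8 ^ n := Nat.one_le_pow _ _ (by norm_num)
    have hs := step (A := 8 ^ (n + 1) * 400) (R := 8 ^ n * 400) (by rw [pow_succ]; omega)
      (by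
        have e : 44 * (8 ^ (n + 1) * 400) = (8 ^ n * 140800) * 1 := by rw [pow_succ]; ring
        have e2 : (8 ^ n * 400) ^ 2 = (8 ^ n * 160000) * 8 ^ n := by ring
        rw [e, e2]
        exact Nat.mul_le_mul (Nat.mul_le_mul_left _ (by norm_num)) h8) h
    obtain ⟨c', d', h'⟩ := hs
    refine ⟨c', d', ?_⟩
    have e : 8 * (8 ^ (n + 1) * 400) = 8 ^ (n + 1 + 1) * 400 := by ring
    rw [e] at h'
    exact h'

/-- Full squares of linear size exist at every scale. -/
theorem sq_all {A : ℕ} (hA : 3200 ≤ A) : ∃ c d, Sq A (A / 64) c d := by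
  set n := Nat.log 8 (A / 3200) with hn
  have h1 : 8 ^ n ≤ A / 3200 := Nat.pow_log_le_self 8 (by omega)
  have h2 : A / 3200 < 8 ^ (n + 1) := Nat.lt_pow_succ_log_self (by norm_num) _
  obtain ⟨c, d, h⟩ := growth n
  refine ⟨c, d, (h.mono_A ?_).mono_R ?_⟩
  · rw [pow_succ]; omega
  · rw [pow_succ] at h2; omega

end Pool.Agent.CatVal
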