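import Pool.Agent.CatVal.Seqs

set_option autoImplicit false

namespace Pool.Agent.CatVal

lemma exists_least (P : ℕ → Prop) (h : ∃ n, P n) : ∃ n, P n ∧ ∀ m < n, ¬ P m := by
  classical
  exact ⟨Nat.find h, Nat.find_spec h, fun m hm => Nat.find_min h hm⟩

lemma cover {φ1 φ2 : ℝ} (h12 : φ1 < φ2) (n0 : ℕ) :
    ∃ n1 ≥ n0, ∀ t : ℝ, φ1 * n1 ≤ t → ∀ M : ℕ, n1 ≤ M → t ≤ φ2 * M →
      ∃ n, n0 ≤ n ∧ n ≤ M ∧ φ1 * n ≤ t ∧ t ≤ φ2 * n := by
  obtain ⟨k, hk⟩ := exists_nat_ge (φ1 / (φ2 - φ1))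
  have hpos : 0 < φ2 - φ1 := by linarith
  rw [div_le_iff₀ hpos] at hk
  refine ⟨max n0 k, le_max_left _ _, ?_⟩
  intro t ht M hM htM
  obtain ⟨n, ⟨hn1, hn2⟩, hmin⟩ := exists_least (fun n => max n0 k ≤ n ∧ t ≤ φ2 * n) ⟨M, hM, htM⟩
  have hnM : n ≤ M := by
    by_contra hlt
    exact hmin M (by omega) ⟨hM, htM⟩
  refine ⟨n, le_trans (le_max_left _ _) hn1, hnM, ?_, hn2⟩
  rcases eq_or_lt_of_le hn1 with h | h
  · rw [← h]; exact ht
  · have h3 := hmin (n - 1) (by omega)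
    have h4 : max n0 k ≤ n - 1 := by omega
    have h5 : φ2 * ((n - 1 : ℕ) : ℝ) < t := by
      by_contra h6
      exact h3 ⟨h4, by linarith⟩
    have h6 : (((n - 1 : ℕ) : ℝ)) = n - 1 := by
      rw [Nat.cast_sub (by omega)]; norm_num
    have h7 : (k : ℝ) ≤ n - 1 := by
      rw [← h6]; exact_mod_cast (le_trans (le_max_right n0 k) h4)
    rw [h6] at h5
    nlinarith

/-- The target property. -/
def Good (a b N : ℕ) : Prop := 3 ∣ N ∧ a * cc 2 N = b * cc 3 N + a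

/-- Every integer between `φ1 n` and `φ2 n` is a value of `a c₂ - b c₃` on small numbers. -/
def Rng (a b : ℕ) (φ1 φ2 : ℝ) : Prop :=
  ∃ n0 : ℕ, ∀ n ≥ n0, ∀ v : ℤ, φ1 * n ≤ v → (v : ℝ) ≤ φ2 * n →
      ∃ r, 3 ∣ r ∧ 2 * r < 2 ^ n ∧ (a : ℤ) * cc 2 r - b * cc 3 r = v ∧ n ≤ 8 * cc 2 r

lemma direct {a b : ℕ} {φ1 φ2 : ℝ} (h1 : φ1 < 0) (h2 : 0 < φ2) (hr : Rng a b φ1 φ2) (L : ℕ) :
    ∃ N ≥ L, Good a b N := by
  obtain ⟨n0, hn0⟩ := hr
  obtain ⟨k, hk⟩ := exists_nat_ge ((a : ℝ) / φ2)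
  rw [div_le_iff₀ h2] at hk
  set n := n0 + k + 8 * L + 8 with hn
  have hnk : (k : ℝ) ≤ n := by exact_mod_cast (by omega : k ≤ n)
  obtain ⟨r, hr1, hr2, hr3, hr4⟩ := hn0 n (by omega) (a : ℤ)
    (by
      have : (0 : ℝ) ≤ (n : ℝ) := Nat.cast_nonneg _
      have h3 : (0 : ℝ) ≤ ((a : ℤ) : ℝ) := by positivity
      nlinarith)
    (by push_cast; nlinarith)
  refine ⟨r, ?_, hr1, ?_⟩
  · by_contra hlt
    have h3 : r < 2 ^ L := lt_of_lt_of_le (by omega) (Nat.lt_pow_self (by norm_num) : L < 2 ^ L).le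
    have := cc_le Nat.prime_two h3
    omega
  · zify; linarith

lemma assemble {a b r n x w : ℕ} (hw : 1 ≤ w) (hr1 : 3 ∣ r) (hr2 : 2 * r < 2 ^ n) (hnx : n ≤ x)
    (hnw : 2 ^ n ≤ 3 ^ w)
    (h : (a : ℤ) * cc 2 r - b * cc 3 r = a + b * cc 3 (2 ^ x) - a * cc 2 (3 ^ w)) :
    Good a b (r + 2 ^ x * 3 ^ w) := by
  refine ⟨?_, ?_⟩
  · apply Dvd.dvd.add hr1
    exact Dvd.dvd.mul_left (dvd_pow_self 3 (by omega)) _
  · have e2 : cc 2 (r + 2 ^ x * 3 ^ w) = cc 2 r + cc 2 (3 ^ w) :=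
      cc_add Nat.prime_two _ (lt_of_lt_of_le hr2 (Nat.pow_le_pow_right (by norm_num) hnx))
    have e3 : cc 3 (r + 2 ^ x * 3 ^ w) = cc 3 r + cc 3 (2 ^ x) := by
      rw [mul_comm]
      exact cc_add Nat.prime_three _ (lt_of_lt_of_le hr2 hnw)
    rw [e2, e3]
    zify
    linarith

lemma C_le (x : ℕ) : (cc 3 (2 ^ x) : ℝ) ≤ lam * x + 1 := by
  have h1 : cc 3 (2 ^ x) ≤ Nat.log 3 (2 ^ x) + 1 :=
    cc_le Nat.prime_three (Nat.lt_pow_succ_log_self (by norm_num) _)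
  have h2 : 3 ^ Nat.log 3 (2 ^ x) ≤ 2 ^ x := Nat.pow_log_le_self 3 (by positivity)
  have h3 := le_lam_of_pow_le h2
  have h4 : (cc 3 (2 ^ x) : ℝ) ≤ (Nat.log 3 (2 ^ x) : ℝ) + 1 := by exact_mod_cast h1
  linarith

/-- `⌊log₂ (3 ^ w)⌋` -/
def nw (w : ℕ) : ℕ := Nat.log 2 (3 ^ w)

lemma nw_pow (w : ℕ) : 2 ^ nw w ≤ 3 ^ w := Nat.pow_log_le_self 2 (by positivity)

lemma nw_lt (w : ℕ) : 3 ^ w < 2 ^ (nw w + 1) := Nat.lt_pow_succ_log_self (by norm_num) _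

lemma nw_ge (w : ℕ) : w ≤ nw w :=
  Nat.le_log_of_pow_le (by norm_num) (Nat.pow_le_pow_left (by norm_num) _)

lemma nw_succ (w : ℕ) : nw (w + 1) ≤ nw w + 2 := by
  have h1 := nw_pow (w + 1)
  have h2 := nw_lt w
  have h3 : 2 ^ nw (w + 1) < 2 ^ (nw w + 3) := by
    calc 2 ^ nw (w + 1) ≤ 3 ^ (w + 1) := h1
      _ = 3 * 3 ^ w := by ring
      _ < 4 * 2 ^ (nw w + 1) := by omega
      _ = 2 ^ (nw w + 3) := by ring
  have := (Nat.pow_lt_pow_iff_right (by norm_num)).mp h3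
  omega

lemma S_le (w : ℕ) : cc 2 (3 ^ w) ≤ nw w + 1 := cc_le Nat.prime_two (nw_lt w)

lemma regimeA {a b : ℕ} (hb : 1 ≤ b) {φ1 φ2 : ℝ} (h12 : φ1 < φ2)
    (hr : Rng a b φ1 φ2) (h2 : (a : ℝ) / 2 < φ2) (h3 : b * lam < φ2) (L : ℕ) :
    ∃ N ≥ L, Good a b N := by
  obtain ⟨n0, hn0⟩ := hr
  obtain ⟨n1, hn1, hcov⟩ := cover h12 n0
  have ha0 : (0 : ℝ) ≤ a := Nat.cast_nonneg a
  have hφ2 : 0 < φ2 := by linarith
  obtain ⟨K1, hK1⟩ := exists_nat_ge ((a + 4 * φ2 + 2 * (φ1 * n1)) / (2 * φ2 - a))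
  rw [div_le_iff₀ (by linarith)] at hK1
  obtain ⟨K, hK⟩ : ∃ K, K = K1 + n1 + 1 := ⟨_, rfl⟩
  obtain ⟨Kc, hKc⟩ := exists_nat_ge ((a + φ2) * K + a)
  obtain ⟨k2, hk2⟩ := exists_nat_ge (((a : ℝ) + b) / (φ2 - b * lam))
  rw [div_le_iff₀ (by linarith)] at hk2
  obtain ⟨x, hx1, hx2⟩ := C_unbounded Kc (L + n1 + k2)
  have hCx := C_le x
  obtain ⟨V, hV⟩ : ∃ V : ℝ, V = a + b * (cc 3 (2 ^ x) : ℝ) := ⟨_, rfl⟩
  have hb' : (1 : ℝ) ≤ b := by exact_mod_cast hb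
  have hVbig : (a + φ2) * K + a ≤ V := by
    have h4 : (Kc : ℝ) ≤ (cc 3 (2 ^ x) : ℝ) := by exact_mod_cast hx2
    have h5 : (cc 3 (2 ^ x) : ℝ) ≤ b * (cc 3 (2 ^ x) : ℝ) := by
      have : (0 : ℝ) ≤ (cc 3 (2 ^ x) : ℝ) := Nat.cast_nonneg _
      nlinarith
    linarith
  have hVx : V ≤ φ2 * x := by
    have h4 : (k2 : ℝ) ≤ x := by exact_mod_cast (by omega : k2 ≤ x)
    have h5 : (k2 : ℝ) * (φ2 - b * lam) ≤ x * (φ2 - b * lam) :=
      mul_le_mul_of_nonneg_right h4 (by linarith)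
    have h6 : (b : ℝ) * (cc 3 (2 ^ x) : ℝ) ≤ b * (lam * x + 1) :=
      mul_le_mul_of_nonneg_left hCx (by linarith)
    linarith
  -- least `w`
  obtain ⟨w, hw, hmin⟩ := exists_least
    (fun w => V ≤ a * (cc 2 (3 ^ w) : ℝ) + φ2 * (nw w : ℝ)) (by
      obtain ⟨w, hw⟩ := exists_nat_ge (V / φ2)
      rw [div_le_iff₀ hφ2] at hw
      refine ⟨w, ?_⟩
      have h4 : (w : ℝ) ≤ nw w := by exact_mod_cast nw_ge w
      have h5 : (0 : ℝ) ≤ a * (cc 2 (3 ^ w) : ℝ) := by positivity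
      have h6 : φ2 * (w : ℝ) ≤ φ2 * (nw w : ℝ) := mul_le_mul_of_nonneg_left h4 hφ2.le
      linarith)
  have hS1 : (cc 2 (3 ^ w) : ℝ) ≤ (nw w : ℝ) + 1 := by exact_mod_cast S_le w
  have haS1 : (a : ℝ) * (cc 2 (3 ^ w) : ℝ) ≤ a * ((nw w : ℝ) + 1) :=
    mul_le_mul_of_nonneg_left hS1 ha0
  have hnwK : K ≤ nw w := by
    have h4 : (a + φ2) * K ≤ (a + φ2) * (nw w : ℝ) := by linarith
    have h5 : (K : ℝ) ≤ nw w := le_of_mul_le_mul_left h4 (by linarith)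
    exact_mod_cast h5
  have hw1 : 1 ≤ w := by
    rcases Nat.eq_zero_or_pos w with h | h
    · rw [h] at hnwK
      have : nw 0 = 0 := by simp [nw]
      omega
    · exact h
  obtain ⟨u, rfl⟩ : ∃ u, w = u + 1 := ⟨w - 1, by omega⟩
  have hlow := hmin u (by omega)
  have hlow' : a * (cc 2 (3 ^ u) : ℝ) + φ2 * (nw u : ℝ) < V := lt_of_not_ge hlow
  have hS2 : (cc 2 (3 ^ (u + 1)) : ℝ) ≤ 2 * (cc 2 (3 ^ u) : ℝ) := by exact_mod_cast S_succ_le u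
  have haS2 : (a : ℝ) * (cc 2 (3 ^ (u + 1)) : ℝ) ≤ a * (2 * (cc 2 (3 ^ u) : ℝ)) :=
    mul_le_mul_of_nonneg_left hS2 ha0
  have hnw2 : (nw (u + 1) : ℝ) ≤ nw u + 2 := by exact_mod_cast nw_succ u
  have hnw3 : φ2 * (nw (u + 1) : ℝ) ≤ φ2 * ((nw u : ℝ) + 2) :=
    mul_le_mul_of_nonneg_left hnw2 hφ2.le
  have hK1w : (K1 : ℝ) * (2 * φ2 - a) ≤ (nw (u + 1) : ℝ) * (2 * φ2 - a) := by
    apply mul_le_mul_of_nonneg_right _ (by linarith)
    exact_mod_cast (by omega : K1 ≤ nw (u + 1))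
  have hclaim : φ1 * n1 ≤ V - a * (cc 2 (3 ^ (u + 1)) : ℝ) := by
    by_contra hcon
    have hcon' : V < a * (cc 2 (3 ^ (u + 1)) : ℝ) + φ1 * n1 := by linarith
    linarith
  have hn1M : n1 ≤ min (nw (u + 1)) x := le_min (by omega) (by omega)
  obtain ⟨n, hn2, hn3, hn4, hn5⟩ := hcov _ hclaim (min (nw (u + 1)) x) hn1M (by
    rcases min_choice (nw (u + 1)) x with h | h
    · rw [h]; linarith
    · rw [h]
      have h5 : (0 : ℝ) ≤ a * (cc 2 (3 ^ (u + 1)) : ℝ) := by positivity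
      linarith)
  obtain ⟨r, hr1, hr2, hr3, hr4⟩ := hn0 n hn2
    ((a : ℤ) + b * cc 3 (2 ^ x) - a * cc 2 (3 ^ (u + 1)))
    (by push_cast; rw [← hV]; exact hn4) (by push_cast; rw [← hV]; exact hn5)
  have hnx : n ≤ x := hn3.trans (min_le_right _ _)
  have hnn : n ≤ nw (u + 1) := hn3.trans (min_le_left _ _)
  refine ⟨r + 2 ^ x * 3 ^ (u + 1), ?_, assemble (by omega) hr1 hr2 hnx
    ((Nat.pow_le_pow_right (by norm_num) hnn).trans (nw_pow _)) hr3⟩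
  have h4 : x < 2 ^ x := Nat.lt_pow_self (by norm_num)
  have h5 : 2 ^ x * 1 ≤ 2 ^ x * 3 ^ (u + 1) := Nat.mul_le_mul_left _ (Nat.one_le_pow _ _ (by norm_num))
  omega

lemma regimeB {a b : ℕ} (ha : 1 ≤ a) (hb : 1 ≤ b) {ψ1 ψ2 : ℝ} (h12 : ψ1 < ψ2)
    (hr : Rng a b (-ψ2) (-ψ1)) (h2 : (a : ℝ) < ψ2) (h3 : b * lam < 2 * ψ2) (L : ℕ) :
    ∃ N ≥ L, Good a b N := by
  obtain ⟨n0, hn0⟩ := hr
  obtain ⟨n1, hn1, hcov⟩ := cover h12 n0
  have ha' : (1 : ℝ) ≤ a := by exact_mod_cast ha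
  have hb' : (1 : ℝ) ≤ b := by exact_mod_cast hb
  have hψ2 : 0 < ψ2 := by linarith
  obtain ⟨D, hD⟩ : ∃ D : ℝ, D = 2 * (ψ1 * n1) + a := ⟨_, rfl⟩
  have hSbig : ∀ K w : ℕ, K ≤ cc 2 (3 ^ w) → (1 : ℝ) ≤ K →
      (K : ℝ) - 1 ≤ a * ((cc 2 (3 ^ w) : ℝ) - 1) := by
    intro K w h h'
    have h4 : (K : ℝ) ≤ (cc 2 (3 ^ w) : ℝ) := by exact_mod_cast h
    nlinarith
  by_cases hcase : ∀ x0 : ℕ, ∃ x ≥ x0, b * (cc 3 (2 ^ x) : ℝ) + D ≤ ψ2 * x
  · -- first case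
    obtain ⟨k, hk⟩ := exists_nat_ge ((a : ℝ) / (ψ2 - a))
    rw [div_le_iff₀ (by linarith)] at hk
    obtain ⟨x, hx1, hx2⟩ := hcase (L + n1 + k + 1)
    obtain ⟨C, hC⟩ : ∃ C : ℝ, C = (cc 3 (2 ^ x) : ℝ) := ⟨_, rfl⟩
    rw [← hC] at hx2
    have hC0 : 0 ≤ C := by rw [hC]; exact Nat.cast_nonneg _
    have hbC : 0 ≤ b * C := by positivity
    obtain ⟨hw1, hw2, hw3⟩ := clog_spec (b := 3) (n := 2 ^ x) (by norm_num)
      (Nat.one_lt_two_pow (by omega))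
    obtain ⟨wx, hwx⟩ : ∃ wx, wx = Nat.clog 3 (2 ^ x) := ⟨_, rfl⟩
    rw [← hwx] at hw1 hw2 hw3
    obtain ⟨w, ⟨hww, hlow⟩, hmin⟩ := exists_least
      (fun w => wx ≤ w ∧ b * C + ψ1 * n1 ≤ a * ((cc 2 (3 ^ w) : ℝ) - 1)) (by
        obtain ⟨K, hK⟩ := exists_nat_ge (max (b * C + ψ1 * n1 + 1) 1)
        obtain ⟨w, hw, hw'⟩ := S_unbounded K wx
        refine ⟨w, hw, ?_⟩
        have h4 := hSbig K w hw' (le_trans (le_max_right _ _) hK)
        have h5 := le_trans (le_max_left _ _) hK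
        linarith)
    have hup : a * ((cc 2 (3 ^ w) : ℝ) - 1) ≤ b * C + ψ2 * x := by
      rcases eq_or_lt_of_le hww with h | h
      · have h4 : 3 ^ w < 2 ^ (x + 2) := by
          calc 3 ^ w = 3 ^ wx := by rw [h]
            _ < 3 * 2 ^ x := hw2
            _ ≤ 4 * 2 ^ x := Nat.mul_le_mul_right _ (by norm_num)
            _ = 2 ^ (x + 2) := by ring
        have h5 : (cc 2 (3 ^ w) : ℝ) ≤ x + 2 := by exact_mod_cast cc_le Nat.prime_two h4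
        have h6 : (a : ℝ) * ((cc 2 (3 ^ w) : ℝ) - 1) ≤ a * ((x : ℝ) + 1) :=
          mul_le_mul_of_nonneg_left (by linarith) (by linarith)
        have h7 : (k : ℝ) * (ψ2 - a) ≤ x * (ψ2 - a) := by
          apply mul_le_mul_of_nonneg_right _ (by linarith)
          exact_mod_cast (by omega : k ≤ x)
        linarith
      · obtain ⟨u, rfl⟩ : ∃ u, w = u + 1 := ⟨w - 1, by omega⟩
        have h4 := hmin u (by omega)
        have h5 : a * ((cc 2 (3 ^ u) : ℝ) - 1) < b * C + ψ1 * n1 := by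
          by_contra h6
          exact h4 ⟨by omega, by linarith⟩
        have h6 : (cc 2 (3 ^ (u + 1)) : ℝ) ≤ 2 * (cc 2 (3 ^ u) : ℝ) := by
          exact_mod_cast S_succ_le u
        have h7 : (a : ℝ) * (cc 2 (3 ^ (u + 1)) : ℝ) ≤ a * (2 * (cc 2 (3 ^ u) : ℝ)) :=
          mul_le_mul_of_nonneg_left h6 (by linarith)
        linarith
    obtain ⟨n, hn2, hn3, hn4, hn5⟩ := hcov (a * ((cc 2 (3 ^ w) : ℝ) - 1) - b * C) (by linarith) x
      (by omega) (by linarith)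
    obtain ⟨r, hr1, hr2, hr3, hr4⟩ := hn0 n hn2
      ((a : ℤ) + b * cc 3 (2 ^ x) - a * cc 2 (3 ^ w))
      (by push_cast; rw [← hC]; linarith) (by push_cast; rw [← hC]; linarith)
    have hwpos : 1 ≤ w := by omega
    refine ⟨r + 2 ^ x * 3 ^ w, ?_, assemble hwpos hr1 hr2 hn3 ?_ hr3⟩
    · have h4 : x < 2 ^ x := Nat.lt_pow_self (by norm_num)
      have h5 : 2 ^ x * 1 ≤ 2 ^ x * 3 ^ w :=
        Nat.mul_le_mul_left _ (Nat.one_le_pow _ _ (by norm_num))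
      omega
    · calc 2 ^ n ≤ 2 ^ x := Nat.pow_le_pow_right (by norm_num) hn3
        _ ≤ 3 ^ wx := hw1
        _ ≤ 3 ^ w := Nat.pow_le_pow_right (by norm_num) hww
  · -- second case
    push Not at hcase
    obtain ⟨x0, hx0⟩ := hcase
    obtain ⟨k, hk⟩ := exists_nat_ge ((b + ψ1 * n1 + D + 2 * ψ2) / (2 * ψ2 - b * lam))
    rw [div_le_iff₀ (by linarith)] at hk
    obtain ⟨x1, hx1⟩ : ∃ x1, x1 = x0 + n1 + k + 1 := ⟨_, rfl⟩
    obtain ⟨K, hK⟩ := exists_nat_ge (max (b * (cc 3 (2 ^ x1) : ℝ) + ψ1 * n1 + 1) 1)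
    obtain ⟨w, hw, hw'⟩ := S_unbounded K (L + n1 + 1)
    have h4 := hSbig K w hw' (le_trans (le_max_right _ _) hK)
    have h5 := le_trans (le_max_left _ _) hK
    obtain ⟨V, hV⟩ : ∃ V : ℝ, V = a * ((cc 2 (3 ^ w) : ℝ) - 1) := ⟨_, rfl⟩
    rw [← hV] at h4
    obtain ⟨x, ⟨hxx, hup⟩, hmin⟩ := exists_least
      (fun x => x1 ≤ x ∧ V ≤ b * (cc 3 (2 ^ x) : ℝ) + ψ2 * x) (by
        obtain ⟨x, hx⟩ := exists_nat_ge (V / ψ2)
        rw [div_le_iff₀ hψ2] at hx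
        refine ⟨x + x1, by omega, ?_⟩
        have h6 : (0 : ℝ) ≤ b * (cc 3 (2 ^ (x + x1)) : ℝ) := by positivity
        have h7 : (0 : ℝ) ≤ ψ2 * x1 := by positivity
        push_cast
        linarith)
    have hCx := C_le x
    have hbCx : (b : ℝ) * (cc 3 (2 ^ x) : ℝ) ≤ b * (lam * x + 1) :=
      mul_le_mul_of_nonneg_left hCx (by linarith)
    have hbC0 : (0 : ℝ) ≤ b * (cc 3 (2 ^ x) : ℝ) := by positivity
    have hlow : b * (cc 3 (2 ^ x) : ℝ) + ψ1 * n1 ≤ V := by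
      rcases eq_or_lt_of_le hxx with h | h
      · rw [← h]; linarith
      · obtain ⟨u, rfl⟩ : ∃ u, x = u + 1 := ⟨x - 1, by omega⟩
        have h6 := hmin u (by omega)
        have h7 : b * (cc 3 (2 ^ u) : ℝ) + ψ2 * u < V := by
          by_contra h8
          exact h6 ⟨by omega, by linarith⟩
        have h8 := hx0 u (by omega)
        have h9 : (k : ℝ) * (2 * ψ2 - b * lam) ≤ ((u + 1 : ℕ) : ℝ) * (2 * ψ2 - b * lam) := by
          apply mul_le_mul_of_nonneg_right _ (by linarith)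
          exact_mod_cast (by omega : k ≤ u + 1)
        push_cast at h9 hbCx ⊢
        linarith
    have hS1 : (cc 2 (3 ^ w) : ℝ) ≤ (nw w : ℝ) + 1 := by exact_mod_cast S_le w
    have hVn : V ≤ ψ2 * (nw w : ℝ) := by
      have h6 : V ≤ a * (nw w : ℝ) := by
        rw [hV]; exact mul_le_mul_of_nonneg_left (by linarith) (by linarith)
      have h7 : (a : ℝ) * (nw w : ℝ) ≤ ψ2 * (nw w : ℝ) :=
        mul_le_mul_of_nonneg_right h2.le (Nat.cast_nonneg _)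
      linarith
    have hnw := nw_ge w
    obtain ⟨n, hn2, hn3, hn4, hn5⟩ := hcov (V - b * (cc 3 (2 ^ x) : ℝ)) (by linarith)
      (min x (nw w)) (le_min (by omega) (by omega)) (by
        rcases min_choice x (nw w) with h | h
        · rw [h]; linarith
        · rw [h]; linarith)
    obtain ⟨r, hr1, hr2, hr3, hr4⟩ := hn0 n hn2
      ((a : ℤ) + b * cc 3 (2 ^ x) - a * cc 2 (3 ^ w))
      (by push_cast; rw [hV] at hn5; linarith) (by push_cast; rw [hV] at hn4; linarith)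
    have hnx : n ≤ x := hn3.trans (min_le_left _ _)
    have hnn : n ≤ nw w := hn3.trans (min_le_right _ _)
    refine ⟨r + 2 ^ x * 3 ^ w, ?_, assemble (by omega) hr1 hr2 hnx
      ((Nat.pow_le_pow_right (by norm_num) hnn).trans (nw_pow _)) hr3⟩
    have h6 : w < 3 ^ w := Nat.lt_pow_self (by norm_num)
    have h7 : 1 * 3 ^ w ≤ 2 ^ x * 3 ^ w :=
      Nat.mul_le_mul_right _ (Nat.one_le_pow _ _ (by norm_num))
    omega

lemma lam_irr {u v : ℕ} (hu : 1 ≤ u) : (u : ℝ) ≠ v * lam := by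
  intro h
  have h1 : (u : ℝ) * Real.log 3 = v * Real.log 2 := by
    rw [h, mul_assoc, lam_mul_log3]
  have h2 : Real.log ((3 : ℝ) ^ u) = Real.log ((2 : ℝ) ^ v) := by
    rw [Real.log_pow, Real.log_pow]; exact h1
  have h3 : (3 : ℝ) ^ u = 2 ^ v :=
    Real.log_injOn_pos (Set.mem_Ioi.mpr (by positivity)) (Set.mem_Ioi.mpr (by positivity)) h2
  have h4 : 3 ^ u = 2 ^ v := by exact_mod_cast h3
  have h5 : (3 ^ u) % 2 = 1 := by rw [Nat.pow_mod]; norm_num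
  rcases Nat.eq_zero_or_pos v with rfl | hv
  · have : 3 ^ 1 ≤ 3 ^ u := Nat.pow_le_pow_right (by norm_num) hu
    omega
  · obtain ⟨v', rfl⟩ : ∃ v', v = v' + 1 := ⟨v - 1, by omega⟩
    rw [h4, pow_succ] at h5
    omega

theorem good_coprime {a b : ℕ} (ha : 1 ≤ a) (hb : 1 ≤ b) (hab : Nat.Coprime a b) (L : ℕ) :
    ∃ N ≥ L, Good a b N := by
  have ha' : (1 : ℝ) ≤ a := by exact_mod_cast ha
  have hb' : (1 : ℝ) ≤ b := by exact_mod_cast hb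
  have hlam := lam_pos
  have hbl : (0 : ℝ) < b * lam := by positivity
  rcases lt_trichotomy ((a : ℝ)) (2 * (b * lam)) with h | h | h
  · rcases lt_trichotomy (2 * (a : ℝ)) (b * lam) with h' | h' | h'
    · -- regime B
      obtain ⟨ψ2, hψ1, hψ2⟩ := exists_between
        (show max (a : ℝ) (b * lam / 2) < 3 * (b * lam) / 4 - a / 2 from
          max_lt (by linarith) (by linarith))
      have hψa : (a : ℝ) < ψ2 := lt_of_le_of_lt (le_max_left _ _) hψ1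
      have hψb : (b : ℝ) * lam / 2 < ψ2 := lt_of_le_of_lt (le_max_right _ _) hψ1
      obtain ⟨ψ1, h5, h6⟩ := exists_between (show (b : ℝ) * lam / 4 - a / 2 < ψ2 by linarith)
      exact regimeB ha hb h6 (range3 ha hb hab (by linarith) (by linarith)) hψa (by linarith) L
    · exfalso
      exact lam_irr (u := 2 * a) (v := b) (by omega) (by push_cast; exact h')
    · -- direct regimes
      rcases lt_or_ge (2 * (b * lam)) (3 * (a : ℝ)) with h5 | h5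
      · obtain ⟨φ1, h6, h7⟩ := exists_between (show (a : ℝ) / 4 - b * lam / 2 < 0 by linarith)
        obtain ⟨φ2, h8, h9⟩ := exists_between (show 0 < 3 * (a : ℝ) / 4 - b * lam / 2 by linarith)
        exact direct h7 h8 (range2 ha hb hab h6 h9) L
      · obtain ⟨φ1, h6, h7⟩ := exists_between
          (show (a : ℝ) / 2 - 3 * b * lam / 4 < 0 by linarith)
        obtain ⟨φ2, h8, h9⟩ := exists_between (show 0 < (a : ℝ) / 2 - b * lam / 4 by linarith)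
        exact direct h7 h8 (range3 ha hb hab h6 h9) L
  · exfalso
    exact lam_irr (u := a) (v := 2 * b) ha (by push_cast; linarith)
  · -- regime A
    obtain ⟨φ2, hφ1, hφ2⟩ := exists_between
      (show max ((a : ℝ) / 2) (b * lam) < 3 * (a : ℝ) / 4 - b * lam / 2 from
        max_lt (by linarith) (by linarith))
    have hφa : (a : ℝ) / 2 < φ2 := lt_of_le_of_lt (le_max_left _ _) hφ1
    have hφb : (b : ℝ) * lam < φ2 := lt_of_le_of_lt (le_max_right _ _) hφ1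
    obtain ⟨φ1, h5, h6⟩ := exists_between (show (a : ℝ) / 4 - b * lam / 2 < φ2 by linarith)
    exact regimeA hb h6 (range2 ha hb hab h5 hφ2) hφa hφb L

/-- The main theorem. -/
theorem main (a b : ℕ) (ha : 1 ≤ a) (hb : 1 ≤ b) :
    {n : ℕ | 0 < n ∧ a * padicValNat 2 (catalan n) = b * padicValNat 3 (catalan n)}.Infinite := by
  rw [Set.infinite_iff_exists_gt]
  intro L
  obtain ⟨g, a', b', hg, hco, rfl, rfl⟩ := Nat.exists_coprime' (m := a) (n := b)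
    (Nat.gcd_pos_of_pos_left b ha)
  have ha1 : 1 ≤ a' := Nat.pos_of_mul_pos_right ha
  have hb1 : 1 ≤ b' := Nat.pos_of_mul_pos_right hb
  obtain ⟨N, hN, h3, hgood⟩ := good_coprime ha1 hb1 hco (L + 2)
  obtain ⟨n, rfl⟩ : ∃ n, N = n + 1 := ⟨N - 1, by omega⟩
  refine ⟨n, ⟨by omega, ?_⟩, by omega⟩
  rw [val_two_catalan, val_three_catalan n h3] at hgood
  have h4 : a' * padicValNat 2 (catalan n) = b' * padicValNat 3 (catalan n) := by
    rw [Nat.mul_add] at hgood; omega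
  calc a' * g * padicValNat 2 (catalan n) = g * (a' * padicValNat 2 (catalan n)) := by ring
    _ = g * (b' * padicValNat 3 (catalan n)) := by rw [h4]
    _ = _ := by ring

end Pool.Agent.CatVal
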