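import Pool.Agent.CatVal.Base

set_option autoImplicit false

namespace Pool.Agent.CatVal

open Finset

/-- Signed version of `gs`. -/
def G (p n w : ℕ) : ℤ := 2 * (gs p n w : ℤ) - n

/-- Sign of the parity. -/
def eps (w : ℕ) : ℤ := 2 * ((w % 2 : ℕ) : ℤ) - 1

lemma eps_sq (w : ℕ) : eps w ^ 2 = 1 := by
  unfold eps
  rcases Nat.mod_two_eq_zero_or_one w with h | h <;> rw [h] <;> norm_num

lemma sum_range_mul {M : Type*} [AddCommMonoid M] (p n : ℕ) (f : ℕ → M) :
    ∑ w ∈ range (p * n), f w = ∑ a ∈ range n, ∑ d ∈ range p, f (p * a + d) := by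
  induction n with
  | zero => simp
  | succ n ih => rw [Nat.mul_succ, Finset.sum_range_add, ih, Finset.sum_range_succ]

lemma G_add (p x k w : ℕ) : G p (x + k) w = G p x w + G p k (w / p ^ x) := by
  unfold G
  rw [gs_add]; push_cast; ring

lemma G_one (p w : ℕ) : G p 1 w = eps (w / p) := by
  unfold G gs eps
  simp

lemma G_step {p : ℕ} (hp : 0 < p) (k a d : ℕ) (hd : d < p) :
    G p (k + 1) (p * a + d) = eps a + G p k a := by
  have h : (p * a + d) / p = a := by
    rw [Nat.mul_add_div hp, Nat.div_eq_of_lt hd, add_zero]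
  rw [add_comm k 1, G_add, G_one, pow_one, h]

lemma sum_G_sq_succ {p : ℕ} (hp : 0 < p) (k : ℕ) :
    ∑ w ∈ range (2 * p ^ (k + 1)), G p (k + 1) w ^ 2 =
      p * (2 * p ^ k + 2 * ∑ w ∈ range (2 * p ^ k), eps w * G p k w +
        ∑ w ∈ range (2 * p ^ k), G p k w ^ 2) := by
  have e : 2 * p ^ (k + 1) = p * (2 * p ^ k) := by ring
  rw [e, sum_range_mul]
  have h1 : ∀ a ∈ range (2 * p ^ k), ∑ d ∈ range p, G p (k + 1) (p * a + d) ^ 2 =
      p * (1 + 2 * (eps a * G p k a) + G p k a ^ 2) := by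
    intro a _
    have h2 : ∀ d ∈ range p, G p (k + 1) (p * a + d) ^ 2 =
        1 + 2 * (eps a * G p k a) + G p k a ^ 2 := by
      intro d hd
      rw [G_step hp k a d (by simpa using hd)]
      have := eps_sq a
      linear_combination this
    rw [Finset.sum_congr rfl h2]
    simp
  rw [Finset.sum_congr rfl h1, ← Finset.mul_sum, Finset.sum_add_distrib, Finset.sum_add_distrib,
    ← Finset.mul_sum]
  simp

lemma sum_eps_G_two (k : ℕ) : ∑ w ∈ range (2 * 2 ^ k), eps w * G 2 k w = 0 := by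
  cases k with
  | zero => simp [G, gs]
  | succ k =>
    have e : 2 * 2 ^ (k + 1) = 2 * (2 * 2 ^ k) := by ring
    rw [e, sum_range_mul]
    apply Finset.sum_eq_zero
    intro a _
    rw [Finset.sum_range_succ, Finset.sum_range_one, G_step (by norm_num) k a 0 (by norm_num),
      G_step (by norm_num) k a 1 (by norm_num)]
    have h0 : eps (2 * a + 0) = -1 := by unfold eps; simp
    have h1 : eps (2 * a + 1) = 1 := by
      unfold eps; rw [show (2 * a + 1) % 2 = 1 by omega]; norm_num
    rw [h0, h1]; ring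

lemma sum_G_sq_two (k : ℕ) : ∑ w ∈ range (2 * 2 ^ k), G 2 k w ^ 2 = 2 * 2 ^ k * k := by
  induction k with
  | zero => simp [G, gs]
  | succ k ih =>
    rw [sum_G_sq_succ (by norm_num), sum_eps_G_two, ih]
    push_cast; ring

lemma sum_eps_G_three (k : ℕ) : ∑ w ∈ range (2 * 3 ^ k), eps w * G 3 k w ≤ 3 ^ k := by
  induction k with
  | zero => simp [G, gs]
  | succ k ih =>
    have e : 2 * 3 ^ (k + 1) = 3 * (2 * 3 ^ k) := by ring
    rw [e, sum_range_mul]
    have h1 : ∀ a ∈ range (2 * 3 ^ k), ∑ d ∈ range 3, eps (3 * a + d) * G 3 (k + 1) (3 * a + d) =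
        1 + eps a * G 3 k a := by
      intro a _
      rw [Finset.sum_range_succ, Finset.sum_range_succ, Finset.sum_range_one,
        G_step (by norm_num) k a 0 (by norm_num), G_step (by norm_num) k a 1 (by norm_num),
        G_step (by norm_num) k a 2 (by norm_num)]
      have h0 : eps (3 * a + 0) = eps a := by
        unfold eps; rw [show (3 * a + 0) % 2 = a % 2 by omega]
      have h2 : eps (3 * a + 2) = eps a := by
        unfold eps; rw [show (3 * a + 2) % 2 = a % 2 by omega]
      have h1 : eps (3 * a + 1) = - eps a := by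
        unfold eps
        rcases Nat.mod_two_eq_zero_or_one a with h | h
        · rw [show (3 * a + 1) % 2 = 1 by omega, h]; norm_num
        · rw [show (3 * a + 1) % 2 = 0 by omega, h]; norm_num
      rw [h0, h1, h2]
      have := eps_sq a
      linear_combination this
    rw [Finset.sum_congr rfl h1, Finset.sum_add_distrib]
    simp only [Finset.sum_const, Finset.card_range, nsmul_eq_mul, mul_one]
    push_cast
    have : (3 : ℤ) ^ (k + 1) = 3 * 3 ^ k := by ring
    linarith

lemma sum_G_sq_three (k : ℕ) : ∑ w ∈ range (2 * 3 ^ k), G 3 k w ^ 2 ≤ 2 * 3 ^ k * (2 * k) := by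
  induction k with
  | zero => simp [G, gs]
  | succ k ih =>
    rw [sum_G_sq_succ (by norm_num)]
    have h := sum_eps_G_three k
    have e : (3 : ℤ) ^ (k + 1) = 3 * 3 ^ k := by ring
    push_cast
    rw [e]
    nlinarith

lemma gs_compl {p : ℕ} (hp : 0 < p) {k w : ℕ} (hw : w < 2 * p ^ k) :
    gs p k (2 * p ^ k - 1 - w) + gs p k w = k := by
  unfold gs
  rw [← Finset.sum_add_distrib]
  have : ∀ i ∈ range k, (2 * p ^ k - 1 - w) / p ^ (i + 1) % 2 + w / p ^ (i + 1) % 2 = 1 := by
    intro i hi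
    have hi' : i + 1 ≤ k := by simpa using hi
    obtain ⟨d, rfl⟩ := Nat.exists_eq_add_of_le hi'
    set P := p ^ (i + 1) with hP
    have hPpos : 0 < P := pow_pos hp _
    set Q := p ^ d with hQ
    have e1 : 2 * p ^ (i + 1 + d) = P * (2 * Q) := by rw [pow_add]; ring
    rw [e1] at hw ⊢
    have hb : w % P < P := Nat.mod_lt _ hPpos
    have hw2 : P * (w / P) + w % P = w := Nat.div_add_mod w P
    have ha : w / P < 2 * Q := by
      rw [Nat.div_lt_iff_lt_mul hPpos]; rw [mul_comm]; exact hw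
    have e2 : P * (2 * Q) - 1 - w = P * (2 * Q - 1 - w / P) + (P - 1 - w % P) := by
      have h3 : P * (2 * Q - 1 - w / P) = P * (2 * Q) - P - P * (w / P) := by
        rw [Nat.mul_sub, Nat.mul_sub, mul_one]
      have h4 : P * (w / P) + P ≤ P * (2 * Q) := by
        calc P * (w / P) + P = P * (w / P + 1) := by ring
          _ ≤ P * (2 * Q) := Nat.mul_le_mul_left _ ha
      rw [h3]; omega
    rw [e2, Nat.mul_add_div hPpos, Nat.div_eq_of_lt (show P - 1 - w % P < P by omega), add_zero]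
    omega
  rw [Finset.sum_congr rfl this]; simp

lemma G_compl {p : ℕ} (hp : 0 < p) {k w : ℕ} (hw : w < 2 * p ^ k) :
    G p k (2 * p ^ k - 1 - w) = - G p k w := by
  unfold G
  have := gs_compl hp hw
  omega

lemma two_mul_sum_even {p : ℕ} (hp : 0 < p) (k : ℕ) :
    2 * ∑ r ∈ range (p ^ k), G p k (2 * r) ^ 2 = ∑ w ∈ range (2 * p ^ k), G p k w ^ 2 := by
  rw [sum_range_mul]
  have h1 : ∀ a ∈ range (p ^ k), ∑ d ∈ range 2, G p k (2 * a + d) ^ 2 =
      G p k (2 * a) ^ 2 + G p k (2 * a + 1) ^ 2 := by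
    intro a _
    rw [Finset.sum_range_succ, Finset.sum_range_one, add_zero]
  rw [Finset.sum_congr rfl h1, Finset.sum_add_distrib, two_mul]
  congr 1
  rw [← Finset.sum_range_reflect (fun a => G p k (2 * a + 1) ^ 2)]
  apply Finset.sum_congr rfl
  intro r hr
  have hr' : r < p ^ k := by simpa using hr
  have e : 2 * (p ^ k - 1 - r) + 1 = 2 * p ^ k - 1 - 2 * r := by omega
  show _ = G p k (2 * (p ^ k - 1 - r) + 1) ^ 2
  rw [e, G_compl hp (by omega)]
  ring

/-- The variance constant: `1` for the prime `2` and `2` for the prime `3`. -/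
def IsVar (p : ℕ) (s : ℤ) : Prop :=
  ∀ k : ℕ, ∑ w ∈ range (2 * p ^ k), G p k w ^ 2 ≤ 2 * p ^ k * (s * k)

lemma isVar_two : IsVar 2 1 := by
  intro k
  rw [sum_G_sq_two]; push_cast; linarith

lemma isVar_three : IsVar 3 2 := by
  intro k
  have := sum_G_sq_three k
  push_cast; linarith

lemma sum_even_le {p : ℕ} {s : ℤ} (hp : 0 < p) (hs : IsVar p s) (k : ℕ) :
    ∑ r ∈ range (p ^ k), G p k (2 * r) ^ 2 ≤ p ^ k * (s * k) := by
  have h1 := two_mul_sum_even hp k
  have h2 := hs k
  linarith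

end Pool.Agent.CatVal
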