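import Pool.Agent.CatVal.Real

set_option autoImplicit false

namespace Pool.Agent.CatVal

lemma scale (K δ D : ℝ) (hδ : 0 < δ) :
    ∃ m : ℕ, 8 ≤ m ∧ ∃ n0 : ℕ, ∀ n ≥ n0, 3200 ≤ n / m ∧ 80 * n ≤ (n / m / 64) ^ 2 ∧
      8 * (n / m) ≤ n ∧ K * (4 * ((n / m : ℕ) : ℝ) + D) ≤ δ * n := by
  obtain ⟨m0, hm0⟩ := exists_nat_ge (8 * K / δ)
  obtain ⟨n1, hn1⟩ := exists_nat_ge (2 * K * D / δ)
  refine ⟨m0 + 8, by omega, max n1 (64 * 6000 * (m0 + 8) ^ 2), ?_⟩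
  intro n hn
  obtain ⟨m, hm⟩ : ∃ m, m = m0 + 8 := ⟨_, rfl⟩
  rw [← hm] at hn ⊢
  have hm8 : 8 ≤ m := by omega
  have hmpos : 0 < m := by omega
  have hn2 : n1 ≤ n := le_trans (le_max_left _ _) hn
  have hn3 : 64 * 6000 * m ^ 2 ≤ n := le_trans (le_max_right _ _) hn
  have hA : 64 * 6000 * m ≤ n / m := by
    rw [Nat.le_div_iff_mul_le hmpos]
    calc 64 * 6000 * m * m = 64 * 6000 * m ^ 2 := by ring
      _ ≤ n := hn3
  have hAm : (n / m) * m ≤ n := Nat.div_mul_le_self _ _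
  obtain ⟨A, hAdef⟩ : ∃ A, A = n / m := ⟨_, rfl⟩
  rw [← hAdef] at hA hAm ⊢
  have hq : 6000 * m ≤ A / 64 := by
    rw [Nat.le_div_iff_mul_le (by norm_num)]; omega
  obtain ⟨q, hqdef⟩ : ∃ q, q = A / 64 := ⟨_, rfl⟩
  rw [← hqdef] at hq ⊢
  have hAq : A + 1 ≤ 64 * (q + 1) := by omega
  have hnA : n < m * (A + 1) := by
    have h1 := Nat.div_add_mod n m
    have h2 := Nat.mod_lt n hmpos
    rw [← hAdef] at h1
    rw [Nat.mul_succ]; omega
  refine ⟨by omega, ?_, by nlinarith, ?_⟩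
  · have h1 : n ≤ m * (64 * (q + 1)) := hnA.le.trans (Nat.mul_le_mul_left _ hAq)
    have h2 : 64 * (q + 1) ≤ 65 * q := by omega
    have h3 : n ≤ m * (65 * q) := h1.trans (Nat.mul_le_mul_left _ h2)
    calc 80 * n ≤ 80 * (m * (65 * q)) := Nat.mul_le_mul_left _ h3
      _ = (5200 * m) * q := by ring
      _ ≤ q * q := Nat.mul_le_mul_right _ (by omega)
      _ = q ^ 2 := by ring
  · have h1 : (A : ℝ) * m ≤ n := by exact_mod_cast hAm
    have h2 : 8 * K ≤ δ * m := by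
      have : 8 * K / δ ≤ m := by
        calc 8 * K / δ ≤ m0 := hm0
          _ ≤ m := by exact_mod_cast (by omega : m0 ≤ m)
      rw [div_le_iff₀ hδ] at this; linarith
    have h3 : 2 * K * D ≤ δ * n := by
      have : 2 * K * D / δ ≤ n := by
        calc 2 * K * D / δ ≤ n1 := hn1
          _ ≤ n := by exact_mod_cast hn2
      rw [div_le_iff₀ hδ] at this; linarith
    have h4 : 8 * K * A ≤ δ * n := by
      calc 8 * K * A ≤ (δ * m) * A := mul_le_mul_of_nonneg_right h2 (Nat.cast_nonneg _)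
        _ = δ * (A * m) := by ring
        _ ≤ δ * n := mul_le_mul_of_nonneg_left h1 hδ.le
    nlinarith

/-- Values of `a c₂ - b c₃`, base two direction. -/
theorem range2 {a b : ℕ} (ha : 1 ≤ a) (hb : 1 ≤ b) (hab : Nat.Coprime a b) {φ1 φ2 : ℝ}
    (h1 : (a : ℝ) / 4 - b * lam / 2 < φ1) (h2 : φ2 < 3 * (a : ℝ) / 4 - b * lam / 2) :
    ∃ n0 : ℕ, ∀ n ≥ n0, ∀ v : ℤ, φ1 * n ≤ v → (v : ℝ) ≤ φ2 * n →
      ∃ r, 3 ∣ r ∧ 2 * r < 2 ^ n ∧ (a : ℤ) * cc 2 r - b * cc 3 r = v ∧ n ≤ 8 * cc 2 r := by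
  set δ : ℝ := min (φ1 - ((a : ℝ) / 4 - b * lam / 2)) (3 * (a : ℝ) / 4 - b * lam / 2 - φ2) with hδ
  have hδpos : 0 < δ := lt_min (by linarith) (by linarith)
  have hδ1 : δ ≤ φ1 - ((a : ℝ) / 4 - b * lam / 2) := min_le_left _ _
  have hδ2 : δ ≤ 3 * (a : ℝ) / 4 - b * lam / 2 - φ2 := min_le_right _ _
  have ha' : (1 : ℝ) ≤ a := by exact_mod_cast ha
  have hb' : (1 : ℝ) ≤ b := by exact_mod_cast hb
  obtain ⟨m, hm, n0, hn0⟩ := scale ((a : ℝ) + b) δ (3 * a + 10) hδpos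
  refine ⟨max n0 (20 * a + 20), ?_⟩
  intro n hn v hv1 hv2
  have hn1 : n0 ≤ n := le_trans (le_max_left _ _) hn
  have hn2 : 20 * a + 20 ≤ n := le_trans (le_max_right _ _) hn
  obtain ⟨hA1, hA2, hA3, hA4⟩ := hn0 n hn1
  obtain ⟨A, hA⟩ : ∃ A, A = n / m := ⟨_, rfl⟩
  rw [← hA] at hA1 hA2 hA3 hA4
  obtain ⟨c, d, hSq⟩ := sq_all hA1
  obtain ⟨H, hH⟩ : ∃ H, H = (n - A - 2 * a - 4) / 2 := ⟨_, rfl⟩
  obtain ⟨C2, C3, y, hy1, hy2, hC1, hC2, hC3, hC4, hrep⟩ := region2 (A := A) (R := A / 64) (J := a)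
    (H := H) (n := n) (by omega) hSq ha (by omega) (by omega) (by omega) (by omega)
  have hlam := lam_pos
  have hlam1 := lam_lt_one
  have hy3 := lam_le_of_pow_le hy1
  have hy4 := lt_lam_of_lt hy2
  -- real versions
  have r1 : (H : ℝ) ≤ 2 * C2 + 1 := by exact_mod_cast hC1
  have r2 : 2 * (C2 : ℝ) ≤ H + 4 * A + 2 * a + 2 := by exact_mod_cast hC2
  have r3 : (y : ℝ) ≤ C3 := by exact_mod_cast hC3
  have r4 : (C3 : ℝ) ≤ y + 2 * A := by exact_mod_cast hC4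
  have r5 : 2 * (H : ℝ) ≤ n := by
    have : 2 * H ≤ n := by omega
    exact_mod_cast this
  have r6 : (n : ℝ) ≤ 2 * H + A + 2 * a + 5 := by
    have : n ≤ 2 * H + A + 2 * a + 5 := by omega
    exact_mod_cast this
  have rA : (0 : ℝ) ≤ A := Nat.cast_nonneg _
  have hblam : (0 : ℝ) < b * lam := by positivity
  have hblam1 : (b : ℝ) * lam ≤ b := by nlinarith
  have l1 : (b : ℝ) * lam * H ≤ b * C3 := by
    have : lam * H ≤ C3 := by linarith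
    calc (b : ℝ) * lam * H = b * (lam * H) := by ring
      _ ≤ b * C3 := mul_le_mul_of_nonneg_left this (by positivity)
  have l2 : (b : ℝ) * C3 ≤ b * lam * H + b * (1 + 2 * A) := by
    have : (C3 : ℝ) ≤ lam * H + (1 + 2 * A) := by linarith
    calc (b : ℝ) * C3 ≤ b * (lam * H + (1 + 2 * A)) := mul_le_mul_of_nonneg_left this (by positivity)
      _ = _ := by ring
  have l3 : (a : ℝ) * C2 ≤ a * (H / 2 + 2 * A + a + 1) :=
    mul_le_mul_of_nonneg_left (by linarith) (by positivity)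
  have l4 : (a : ℝ) * (H / 2 - 1 / 2) ≤ a * C2 :=
    mul_le_mul_of_nonneg_left (by linarith) (by positivity)
  have l5 : (a : ℝ) * H ≤ a * (n / 2) := mul_le_mul_of_nonneg_left (by linarith) (by positivity)
  have l6 : (a : ℝ) * (n / 2 - A / 2 - a - 5 / 2) ≤ a * H :=
    mul_le_mul_of_nonneg_left (by linarith) (by positivity)
  have l7 : (b : ℝ) * lam * H ≤ b * lam * (n / 2) :=
    mul_le_mul_of_nonneg_left (by linarith) (by positivity)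
  have l8 : (b : ℝ) * lam * (n / 2 - A / 2 - a - 5 / 2) ≤ b * lam * H :=
    mul_le_mul_of_nonneg_left (by linarith) (by positivity)
  have l9 : (b : ℝ) * lam * (A / 2 + a + 5 / 2) ≤ b * (A / 2 + a + 5 / 2) :=
    mul_le_mul_of_nonneg_right hblam1 (by positivity)
  have d1 : δ * n ≤ (φ1 - ((a : ℝ) / 4 - b * lam / 2)) * n :=
    mul_le_mul_of_nonneg_right hδ1 (Nat.cast_nonneg _)
  have d2 : δ * n ≤ (3 * (a : ℝ) / 4 - b * lam / 2 - φ2) * n :=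
    mul_le_mul_of_nonneg_right hδ2 (Nat.cast_nonneg _)
  have aA : 0 ≤ (a : ℝ) * A := by positivity
  have bA : 0 ≤ (b : ℝ) * A := by positivity
  have aa : 0 ≤ (a : ℝ) * a := by positivity
  have ba : 0 ≤ (b : ℝ) * a := by positivity
  have g1 : (a : ℤ) * C2 ≤ v + b * C3 := by
    have : (a : ℝ) * C2 ≤ v + b * C3 := by linarith
    exact_mod_cast this
  have g2 : v + b * (C3 + a) ≤ a * (C2 + (H - A : ℕ)) := by
    have hHA : A ≤ H := by omega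
    have : (v : ℝ) + b * (C3 + a) ≤ a * (C2 + (H - A)) := by linarith
    have e : (((H - A : ℕ) : ℤ)) = (H : ℤ) - A := by push_cast [Nat.cast_sub hHA]; ring
    rw [e]
    exact_mod_cast this
  obtain ⟨i, hi, j, hj, hij⟩ := arith2 ha hb hab le_rfl g1 g2
  obtain ⟨r, hr1, hr2, hr3, hr4⟩ := hrep i hi j hj
  refine ⟨r, hr1, hr2, ?_, by omega⟩
  rw [hr3, hr4]; exact hij

/-- Values of `a c₂ - b c₃`, base three direction. -/
theorem range3 {a b : ℕ} (ha : 1 ≤ a) (hb : 1 ≤ b) (hab : Nat.Coprime a b) {φ1 φ2 : ℝ}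
    (h1 : (a : ℝ) / 2 - 3 * b * lam / 4 < φ1) (h2 : φ2 < (a : ℝ) / 2 - b * lam / 4) :
    ∃ n0 : ℕ, ∀ n ≥ n0, ∀ v : ℤ, φ1 * n ≤ v → (v : ℝ) ≤ φ2 * n →
      ∃ r, 3 ∣ r ∧ 2 * r < 2 ^ n ∧ (a : ℤ) * cc 2 r - b * cc 3 r = v ∧ n ≤ 8 * cc 2 r := by
  set δ : ℝ := min (φ1 - ((a : ℝ) / 2 - 3 * b * lam / 4)) ((a : ℝ) / 2 - b * lam / 4 - φ2) with hδ
  have hδpos : 0 < δ := lt_min (by linarith) (by linarith)
  have hδ1 : δ ≤ φ1 - ((a : ℝ) / 2 - 3 * b * lam / 4) := min_le_left _ _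
  have hδ2 : δ ≤ (a : ℝ) / 2 - b * lam / 4 - φ2 := min_le_right _ _
  have ha' : (1 : ℝ) ≤ a := by exact_mod_cast ha
  have hb' : (1 : ℝ) ≤ b := by exact_mod_cast hb
  obtain ⟨m, hm, n0, hn0⟩ := scale ((a : ℝ) + b) δ (3 * b + 10) hδpos
  refine ⟨max n0 (40 * b + 200), ?_⟩
  intro n hn v hv1 hv2
  have hn1 : n0 ≤ n := le_trans (le_max_left _ _) hn
  have hn2 : 40 * b + 200 ≤ n := le_trans (le_max_right _ _) hn
  obtain ⟨hA1, hA2, hA3, hA4⟩ := hn0 n hn1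
  obtain ⟨A, hA⟩ : ∃ A, A = n / m := ⟨_, rfl⟩
  rw [← hA] at hA1 hA2 hA3 hA4
  obtain ⟨c, d, hSq⟩ := sq_all hA1
  obtain ⟨x0, hx0⟩ : ∃ x0, x0 = (n - A - b - 2) / 2 := ⟨_, rfl⟩
  obtain ⟨G, hGdef⟩ : ∃ G, G = Nat.log 3 (2 ^ x0) := ⟨_, rfl⟩
  have hG1 : 3 ^ G ≤ 2 ^ x0 := by rw [hGdef]; exact Nat.pow_log_le_self 3 (by positivity)
  have hG2 : 2 ^ x0 < 3 ^ (G + 1) := by rw [hGdef]; exact Nat.lt_pow_succ_log_self (by norm_num) _
  have hG3 : x0 < 2 * G + 2 := by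
    have h3 : 3 ^ (G + 1) ≤ 4 ^ (G + 1) := Nat.pow_le_pow_left (by norm_num) _
    have h4 : (4 : ℕ) ^ (G + 1) = 2 ^ (2 * G + 2) := by
      rw [show (4 : ℕ) = 2 ^ 2 by norm_num, ← pow_mul]; congr 1
    have h5 : 2 ^ x0 < 2 ^ (2 * G + 2) := by rw [← h4]; exact lt_of_lt_of_le hG2 h3
    exact (Nat.pow_lt_pow_iff_right (by norm_num)).mp h5
  have hG4 : G ≤ x0 := by
    have h3 : 3 ^ G ≤ 3 ^ x0 := hG1.trans (Nat.pow_le_pow_left (by norm_num) _)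
    exact (Nat.pow_le_pow_iff_right (by norm_num)).mp h3
  obtain ⟨hx1, hx2, hx3⟩ := clog_spec (b := 2) (n := 3 ^ G) (by norm_num)
    (Nat.one_lt_pow (by omega) (by norm_num))
  obtain ⟨x, hx⟩ : ∃ x, x = Nat.clog 2 (3 ^ G) := ⟨_, rfl⟩
  rw [← hx] at hx1 hx2 hx3
  have hxx : x ≤ x0 := by
    rw [hx]; exact (Nat.clog_le_iff_le_pow (by norm_num)).mpr hG1
  have hxx2 : x0 ≤ x + 1 := by
    have h3 : 2 ^ x0 < 2 ^ (x + 2) := by
      calc 2 ^ x0 < 3 ^ (G + 1) := hG2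
        _ = 3 * 3 ^ G := by ring
        _ ≤ 4 * 2 ^ x := Nat.mul_le_mul (by norm_num) hx1
        _ = 2 ^ (x + 2) := by ring
    have := (Nat.pow_lt_pow_iff_right (by norm_num)).mp h3
    omega
  obtain ⟨C2, C3, hC1, hC2, hC3, hC4, hrep⟩ := region3 (A := A) (R := A / 64) (I := b)
    (G := G) (n := n) (x := x) (by omega) hSq hb (by omega) hx1 hx2 (by omega) (by omega)
  have hlam := lam_pos
  have hlam1 := lam_lt_one
  have hy3 := le_lam_of_pow_le hG1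
  have hy4 : lam * x0 ≤ G + 1 := by
    have := lam_le_of_pow_le hG2.le
    push_cast at this; exact this
  -- real versions
  have r1 : (x : ℝ) ≤ C2 := by exact_mod_cast hC1
  have r2 : (C2 : ℝ) ≤ x + 2 * A := by exact_mod_cast hC2
  have r3 : (G : ℝ) ≤ 2 * C3 + 1 := by exact_mod_cast hC3
  have r4 : 2 * (C3 : ℝ) ≤ G + 3 * A + b := by exact_mod_cast hC4
  have r5 : 2 * (x0 : ℝ) ≤ n := by
    have : 2 * x0 ≤ n := by omega
    exact_mod_cast this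
  have r6 : (n : ℝ) ≤ 2 * x0 + A + b + 3 := by
    have : n ≤ 2 * x0 + A + b + 3 := by omega
    exact_mod_cast this
  have r7 : (x : ℝ) ≤ x0 := by exact_mod_cast hxx
  have r8 : (x0 : ℝ) ≤ x + 1 := by exact_mod_cast hxx2
  have rA : (0 : ℝ) ≤ A := Nat.cast_nonneg _
  have hblam : (0 : ℝ) < b * lam := by positivity
  have hblam1 : (b : ℝ) * lam ≤ b := by nlinarith
  have l1 : (b : ℝ) * C3 ≤ b * (lam * x0 / 2 + 3 * A / 2 + b / 2) :=
    mul_le_mul_of_nonneg_left (by linarith) (by positivity)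
  have l2 : (b : ℝ) * (lam * x0) / 2 ≤ b * lam * n / 4 := by
    have : (b : ℝ) * lam * (2 * x0) ≤ b * lam * n := mul_le_mul_of_nonneg_left r5 hblam.le
    linarith
  have l3 : (a : ℝ) * (n / 2 - A / 2 - b / 2 - 5 / 2) ≤ a * C2 :=
    mul_le_mul_of_nonneg_left (by linarith) (by positivity)
  have l4 : (a : ℝ) * C2 ≤ a * (n / 2 + 2 * A) :=
    mul_le_mul_of_nonneg_left (by linarith) (by positivity)
  have l5 : (b : ℝ) * (lam * x0 / 2 - 1) ≤ b * C3 :=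
    mul_le_mul_of_nonneg_left (by linarith) (by positivity)
  have l6 : (b : ℝ) * (lam * x0 - 1) ≤ b * G :=
    mul_le_mul_of_nonneg_left (by linarith) (by positivity)
  have l7 : (b : ℝ) * lam * (n - A - b - 3) ≤ b * lam * (2 * x0) :=
    mul_le_mul_of_nonneg_left (by linarith) hblam.le
  have l8 : (b : ℝ) * lam * (A + b + 3) ≤ b * (A + b + 3) :=
    mul_le_mul_of_nonneg_right hblam1 (by positivity)
  have d1 : δ * n ≤ (φ1 - ((a : ℝ) / 2 - 3 * b * lam / 4)) * n :=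
    mul_le_mul_of_nonneg_right hδ1 (Nat.cast_nonneg _)
  have d2 : δ * n ≤ ((a : ℝ) / 2 - b * lam / 4 - φ2) * n :=
    mul_le_mul_of_nonneg_right hδ2 (Nat.cast_nonneg _)
  have aA : 0 ≤ (a : ℝ) * A := by positivity
  have bA : 0 ≤ (b : ℝ) * A := by positivity
  have bb : 0 ≤ (b : ℝ) * b := by positivity
  have ba : 0 ≤ (b : ℝ) * a := by positivity
  have g1 : v + b * C3 ≤ (a : ℤ) * C2 := by
    have : v + (b : ℝ) * C3 ≤ a * C2 := by linarith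
    exact_mod_cast this
  have g2 : (a : ℤ) * (C2 + b) ≤ v + b * (C3 + (G - A : ℕ)) := by
    have hGA : A ≤ G := by omega
    have : (a : ℝ) * (C2 + b) ≤ v + b * (C3 + (G - A)) := by linarith
    have e : (((G - A : ℕ) : ℤ)) = (G : ℤ) - A := by push_cast [Nat.cast_sub hGA]; ring
    rw [e]
    exact_mod_cast this
  obtain ⟨i, hi, j, hj, hij⟩ := arith3 ha hb hab le_rfl g1 g2
  obtain ⟨r, hr1, hr2, hr3, hr4⟩ := hrep i hi j hj
  refine ⟨r, hr1, hr2, ?_, by omega⟩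
  rw [hr3, hr4]; exact hij

end Pool.Agent.CatVal
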