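import Pool.Agent.CatVal.Region

set_option autoImplicit false

namespace Pool.Agent.CatVal

/-- `log 2 / log 3`. -/
noncomputable def lam : ℝ := Real.log 2 / Real.log 3

lemma log3_pos : 0 < Real.log 3 := Real.log_pos (by norm_num)
lemma log2_pos : 0 < Real.log 2 := Real.log_pos (by norm_num)

lemma lam_pos : 0 < lam := div_pos log2_pos log3_pos

lemma lam_lt_one : lam < 1 := by
  unfold lam
  rw [div_lt_one log3_pos]
  exact Real.log_lt_log (by norm_num) (by norm_num)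

lemma lam_mul_log3 : lam * Real.log 3 = Real.log 2 := by
  unfold lam
  field_simp [log3_pos.ne']

lemma lam_le_of_pow_le {u v : ℕ} (h : 2 ^ u ≤ 3 ^ v) : lam * u ≤ v := by
  have h1 : ((2 : ℝ) ^ u) ≤ 3 ^ v := by exact_mod_cast h
  have h2 := Real.log_le_log (by positivity) h1
  rw [Real.log_pow, Real.log_pow, ← lam_mul_log3] at h2
  have h3 : (lam * u) * Real.log 3 ≤ v * Real.log 3 := by linarith
  exact le_of_mul_le_mul_right h3 log3_pos

lemma pow_le_of_lam_le {u v : ℕ} (h : lam * u ≤ v) : 2 ^ u ≤ 3 ^ v := by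
  have h1 : (lam * u) * Real.log 3 ≤ v * Real.log 3 := mul_le_mul_of_nonneg_right h log3_pos.le
  have h2 : Real.log ((2 : ℝ) ^ u) ≤ Real.log ((3 : ℝ) ^ v) := by
    rw [Real.log_pow, Real.log_pow, ← lam_mul_log3]; linarith
  have h3 := (Real.log_le_log_iff (by positivity) (by positivity)).mp h2
  exact_mod_cast h3

lemma le_lam_of_pow_le {u v : ℕ} (h : 3 ^ v ≤ 2 ^ u) : (v : ℝ) ≤ lam * u := by
  have h1 : ((3 : ℝ) ^ v) ≤ 2 ^ u := by exact_mod_cast h
  have h2 := Real.log_le_log (by positivity) h1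
  rw [Real.log_pow, Real.log_pow, ← lam_mul_log3] at h2
  have h3 : v * Real.log 3 ≤ (lam * u) * Real.log 3 := by linarith
  exact le_of_mul_le_mul_right h3 log3_pos

lemma lt_lam_of_lt {u v : ℕ} (h : 3 ^ v < 3 * 2 ^ u) : (v : ℝ) < lam * u + 1 := by
  have h1 : ((3 : ℝ) ^ v) < 3 * 2 ^ u := by exact_mod_cast h
  have h2 := Real.log_lt_log (by positivity) h1
  rw [Real.log_pow, Real.log_mul (by norm_num) (by positivity), Real.log_pow, ← lam_mul_log3] at h2
  have h3 : v * Real.log 3 < (lam * u + 1) * Real.log 3 := by linarith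
  exact lt_of_mul_lt_mul_right h3 log3_pos.le

lemma lam_lt_of_lt {x g : ℕ} (h : 2 ^ x < 2 * 3 ^ g) : lam * x < g + lam := by
  have h1 : ((2 : ℝ) ^ x) < 2 * 3 ^ g := by exact_mod_cast h
  have h2 := Real.log_lt_log (by positivity) h1
  rw [Real.log_pow, Real.log_mul (by norm_num) (by positivity), Real.log_pow] at h2
  have h3 : (lam * x) * Real.log 3 < (g + lam) * Real.log 3 := by
    have e : (lam * x) * Real.log 3 = x * Real.log 2 := by rw [← lam_mul_log3]; ring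
    have e2 : (g + lam) * Real.log 3 = Real.log 2 + g * Real.log 3 := by rw [← lam_mul_log3]; ring
    rw [e, e2]; exact h2
  exact lt_of_mul_lt_mul_right h3 log3_pos.le

lemma arith2 {a b : ℕ} (ha : 1 ≤ a) (hb : 1 ≤ b) (hab : Nat.Coprime a b) {C2 C3 I J : ℕ}
    (hJ : a ≤ J) {v : ℤ} (h1 : (a : ℤ) * C2 ≤ v + b * C3) (h2 : v + b * (C3 + a) ≤ a * (C2 + I)) :
    ∃ i < I, ∃ j < J, (a : ℤ) * ((C2 + i : ℕ) : ℤ) - b * ((C3 + j : ℕ) : ℤ) = v := by
  obtain ⟨s, t, hst⟩ : IsCoprime (a : ℤ) (b : ℤ) := Nat.isCoprime_iff_coprime.mpr hab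
  have ha' : (0 : ℤ) < a := by exact_mod_cast ha
  have hb' : (0 : ℤ) < b := by exact_mod_cast hb
  set j0 : ℤ := -t * (v + b * C3) with hj0
  have hj1 : 0 ≤ j0 % a := Int.emod_nonneg _ ha'.ne'
  have hj2 : j0 % a < a := Int.emod_lt_of_pos _ ha'
  have hj3 : j0 = a * (j0 / a) + j0 % a := (Int.mul_ediv_add_emod j0 a).symm
  obtain ⟨j, hj⟩ := Int.eq_ofNat_of_zero_le hj1
  have hdvd : (a : ℤ) ∣ v + b * (C3 + j) := by
    refine ⟨(v + b * C3) * s - b * (j0 / a), ?_⟩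
    rw [← hj]
    have e : j0 % a = j0 - a * (j0 / a) := by linarith
    rw [e]
    have e2 : v + b * (C3 + (j0 - a * (j0 / a))) = (v + b * C3) + b * j0 - a * (b * (j0 / a)) := by
      ring
    rw [e2, hj0]
    have e3 : (v + b * C3) + b * (-t * (v + b * C3)) = (v + b * C3) * (s * a) := by
      linear_combination (-(v + b * C3)) * hst
    linear_combination e3
  obtain ⟨S, hS⟩ := hdvd
  have hj4 : (j : ℤ) < a := by rw [← hj]; exact hj2
  have hS1 : (C2 : ℤ) ≤ S := by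
    have : (a : ℤ) * C2 ≤ a * S := by
      rw [← hS]
      have : 0 ≤ (b : ℤ) * j := by positivity
      linarith
    exact le_of_mul_le_mul_left this ha'
  have hS2 : S < C2 + I := by
    have : (a : ℤ) * S < a * (C2 + I) := by
      rw [← hS]
      have : (b : ℤ) * j < b * a := mul_lt_mul_of_pos_left hj4 hb'
      linarith
    exact lt_of_mul_lt_mul_left this ha'.le
  obtain ⟨i, hi⟩ := Int.eq_ofNat_of_zero_le (sub_nonneg.mpr hS1)
  refine ⟨i, by omega, j, by omega, ?_⟩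
  push_cast
  have hi' : (C2 : ℤ) + i = S := by rw [← hi]; ring
  rw [hi']
  linarith

lemma arith3 {a b : ℕ} (ha : 1 ≤ a) (hb : 1 ≤ b) (hab : Nat.Coprime a b) {C2 C3 I J : ℕ}
    (hI : b ≤ I) {v : ℤ} (h1 : v + b * C3 ≤ a * C2) (h2 : (a : ℤ) * (C2 + b) ≤ v + b * (C3 + J)) :
    ∃ i < I, ∃ j < J, (a : ℤ) * ((C2 + i : ℕ) : ℤ) - b * ((C3 + j : ℕ) : ℤ) = v := by
  obtain ⟨j, hj, i, hi, h⟩ := arith2 (a := b) (b := a) hb ha hab.symm (C2 := C3) (C3 := C2)
    (I := J) (J := I) hI (v := -v) (by linarith) (by linarith)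
  exact ⟨i, hi, j, hj, by linarith⟩

end Pool.Agent.CatVal
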