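import Pool.Agent.CatVal.Growth

set_option autoImplicit false

namespace Pool.Agent.CatVal

lemma box {A B R c d A' X Y x k y l T : ℕ} (hSq : Sq A R c d) (hB : 2 ^ A ≤ 3 ^ B) (hB1 : 1 ≤ B)
    (hX : 1 ≤ X) (hY : 1 ≤ Y) (hT : 0 < T)
    (h2 : 3 ^ (B + Y) * T ≤ 2 ^ (x + k)) (h3 : 2 ^ (A + X) * T ≤ 3 ^ (y + l))
    (hR : 2 * ((T / 2 ^ x + 1) * (2 ^ x * x)) +
          2 * ((2 ^ x / (2 * 3 ^ (B + Y)) + 1) * (2 * 2 ^ k * k)) +
          (2 * ((T / 3 ^ y + 1) * (3 ^ y * (2 * y))) +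
          2 * ((3 ^ y / (2 * 2 ^ (A + X)) + 1) * (2 * 3 ^ l * (2 * l)))) ≤ R ^ 2 * T)
    (hA' : 2 * (2 ^ (A + X) * 3 ^ (B + Y) * T) + 2 ^ A ≤ 2 ^ A') :
    ∀ i < X, ∀ j < Y, ∃ N, 3 ∣ N ∧ 2 * N < 2 ^ A' ∧ cc 2 N = c + (x + k + R) / 2 + i ∧
      cc 3 N = d + (y + l + R) / 2 + j := by
  have hcore := core A B X Y x k y l T R hX hY hT h2 h3 hR
  apply combine (A' := A') hSq hB hB1
  intro i hi j hj
  obtain ⟨M, hM1, hM2, hM3, hM4⟩ := hcore i j hi hj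
  rw [abs_le] at hM3 hM4
  refine ⟨M, hM1, ?_, ?_, ?_, ?_, ?_⟩
  · have : 2 * M ≤ 2 * (2 ^ (A + X) * 3 ^ (B + Y) * T) := by omega
    exact (Nat.add_le_add_right this _).trans hA'
  all_goals omega

lemma Sq.bounds {A R c d : ℕ} (h : Sq A R c d) : c + R ≤ A ∧ d + R ≤ A := by
  obtain ⟨r, h1, h2, h3, h4⟩ := h R le_rfl R le_rfl
  have h5 : r < 2 ^ A := by omega
  have h6 : r < 3 ^ A := lt_of_lt_of_le h5 (Nat.pow_le_pow_left (by norm_num) _)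
  have h7 := cc_le Nat.prime_two h5
  have h8 := cc_le Nat.prime_three h6
  omega

/-- Explicit region lemma, base two direction. -/
lemma region2 {A R c d J H n : ℕ} (hA : 1 ≤ A) (hSq : Sq A R c d) (hJ : 1 ≤ J) (hAH : A < H)
    (hJH : 2 * J + A + 2 ≤ H) (hR : 80 * (H + 1) ≤ R ^ 2) (hn : 2 * H + A + 2 * J + 4 ≤ n) :
    ∃ C2 C3 y : ℕ, 2 ^ H ≤ 3 ^ y ∧ 3 ^ y < 3 * 2 ^ H ∧ H ≤ 2 * C2 + 1 ∧
      2 * C2 ≤ H + 4 * A + 2 * J + 2 ∧ y ≤ C3 ∧ C3 ≤ y + 2 * A ∧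
      ∀ i < H - A, ∀ j < J, ∃ N, 3 ∣ N ∧ 2 * N < 2 ^ n ∧ cc 2 N = C2 + i ∧ cc 3 N = C3 + j := by
  obtain ⟨hB1, hB2, hB3⟩ := clog_spec (b := 3) (n := 2 ^ A) (by norm_num)
    (Nat.one_lt_two_pow (by omega))
  obtain ⟨B, hB⟩ : ∃ B, B = Nat.clog 3 (2 ^ A) := ⟨_, rfl⟩
  rw [← hB] at hB1 hB2 hB3
  obtain ⟨hx1, hx2, hx3⟩ := clog_spec (b := 2) (n := 3 ^ (B + J)) (by norm_num)
    (Nat.one_lt_pow (by omega) (by norm_num))
  obtain ⟨x, hx⟩ : ∃ x, x = Nat.clog 2 (3 ^ (B + J)) := ⟨_, rfl⟩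
  rw [← hx] at hx1 hx2 hx3
  obtain ⟨hy1, hy2, hy3⟩ := clog_spec (b := 3) (n := 2 ^ H) (by norm_num)
    (Nat.one_lt_two_pow (by omega))
  obtain ⟨y, hy⟩ : ∃ y, y = Nat.clog 3 (2 ^ H) := ⟨_, rfl⟩
  rw [← hy] at hy1 hy2 hy3
  have hX : A + (H - A) = H := by omega
  -- bound on x
  have bx : x ≤ A + 2 * J + 2 := by
    have h1 : 2 ^ x < 2 ^ (A + 2 * J + 3) := by
      calc 2 ^ x < 2 * 3 ^ (B + J) := hx2
        _ = 2 * 3 ^ J * 3 ^ B := by rw [pow_add]; ring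
        _ < 2 * 3 ^ J * (3 * 2 ^ A) := Nat.mul_lt_mul_of_pos_left hB2 (by positivity)
        _ ≤ 2 * 4 ^ J * (4 * 2 ^ A) :=
          Nat.mul_le_mul (Nat.mul_le_mul_left _ (Nat.pow_le_pow_left (by norm_num) _))
            (Nat.mul_le_mul_right _ (by norm_num))
        _ = 2 ^ (A + 2 * J + 3) := by
          rw [show (4 : ℕ) = 2 ^ 2 by norm_num, ← pow_mul, pow_add, pow_add]; ring
    have := (Nat.pow_lt_pow_iff_right (by norm_num)).mp h1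
    omega
  have bxH : x ≤ H := by omega
  -- bound on y
  have byH : y ≤ H + 1 := by
    have h1 : 3 ^ y < 3 ^ (H + 1) * 1 + 1 := by
      have : 2 ^ H ≤ 3 ^ H := Nat.pow_le_pow_left (by norm_num) _
      rw [pow_succ]; omega
    have h2 : 3 ^ y ≤ 3 ^ (H + 1) := by omega
    exact (Nat.pow_le_pow_iff_right (by norm_num)).mp h2
  have hP : 2 ^ x ≤ 2 ^ H := Nat.pow_le_pow_right (by norm_num) bxH
  have hTpos : 0 < 2 ^ H := by positivity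
  have t1 : 2 * ((2 ^ H / 2 ^ x + 1) * (2 ^ x * x)) ≤ 2 ^ H * (4 * H) := by
    have h1 : (2 ^ H / 2 ^ x) * 2 ^ x ≤ 2 ^ H := Nat.div_mul_le_self _ _
    have h2 : (2 ^ H / 2 ^ x + 1) * 2 ^ x ≤ 2 * 2 ^ H := by rw [Nat.add_mul, one_mul]; omega
    calc 2 * ((2 ^ H / 2 ^ x + 1) * (2 ^ x * x)) = ((2 ^ H / 2 ^ x + 1) * 2 ^ x) * (2 * x) := by ring
      _ ≤ (2 * 2 ^ H) * (2 * H) := Nat.mul_le_mul h2 (by omega)
      _ = 2 ^ H * (4 * H) := by ring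
  have t2 : 2 * ((2 ^ x / (2 * 3 ^ (B + J)) + 1) * (2 * 2 ^ H * H)) ≤ 2 ^ H * (4 * H) := by
    have h1 : 2 ^ x / (2 * 3 ^ (B + J)) = 0 := Nat.div_eq_of_lt hx2
    rw [h1]
    calc 2 * ((0 + 1) * (2 * 2 ^ H * H)) = 2 ^ H * (4 * H) := by ring
      _ ≤ _ := le_rfl
  have t3 : 2 * ((2 ^ H / 3 ^ y + 1) * (3 ^ y * (2 * y))) ≤ 2 ^ H * (24 * (H + 1)) := by
    have h1 : 2 ^ H / 3 ^ y ≤ 1 := Nat.div_le_of_le_mul (by omega)
    calc 2 * ((2 ^ H / 3 ^ y + 1) * (3 ^ y * (2 * y)))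
        ≤ 2 * ((1 + 1) * ((3 * 2 ^ H) * (2 * (H + 1)))) := by
          apply Nat.mul_le_mul_left
          apply Nat.mul_le_mul (by omega)
          exact Nat.mul_le_mul hy2.le (by omega)
      _ = 2 ^ H * (24 * (H + 1)) := by ring
  have t4 : 2 * ((3 ^ y / (2 * 2 ^ (A + (H - A))) + 1) * (2 * 3 ^ y * (2 * y))) ≤
      2 ^ H * (48 * (H + 1)) := by
    rw [hX]
    have h1 : 3 ^ y / (2 * 2 ^ H) < 2 := by
      rw [Nat.div_lt_iff_lt_mul (by positivity)]; omega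
    calc 2 * ((3 ^ y / (2 * 2 ^ H) + 1) * (2 * 3 ^ y * (2 * y)))
        ≤ 2 * ((1 + 1) * (2 * (3 * 2 ^ H) * (2 * (H + 1)))) := by
          apply Nat.mul_le_mul_left
          apply Nat.mul_le_mul (by omega)
          exact Nat.mul_le_mul (Nat.mul_le_mul_left _ hy2.le) (by omega)
      _ = 2 ^ H * (48 * (H + 1)) := by ring
  have hineq : 2 * ((2 ^ H / 2 ^ x + 1) * (2 ^ x * x)) +
      2 * ((2 ^ x / (2 * 3 ^ (B + J)) + 1) * (2 * 2 ^ H * H)) +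
      (2 * ((2 ^ H / 3 ^ y + 1) * (3 ^ y * (2 * y))) +
      2 * ((3 ^ y / (2 * 2 ^ (A + (H - A))) + 1) * (2 * 3 ^ y * (2 * y)))) ≤ R ^ 2 * 2 ^ H := by
    calc _ ≤ 2 ^ H * (4 * H) + 2 ^ H * (4 * H) + (2 ^ H * (24 * (H + 1)) + 2 ^ H * (48 * (H + 1))) :=
          Nat.add_le_add (Nat.add_le_add t1 t2) (Nat.add_le_add t3 t4)
      _ = 2 ^ H * (8 * H + 72 * (H + 1)) := by ring
      _ ≤ 2 ^ H * R ^ 2 := Nat.mul_le_mul_left _ (by omega)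
      _ = R ^ 2 * 2 ^ H := by ring
  have hbox := box (A' := n) (X := H - A) (Y := J) (x := x) (k := H) (y := y) (l := y) (T := 2 ^ H)
    hSq hB1 hB3 (by omega) hJ hTpos
    (by rw [pow_add 2 x H]; exact Nat.mul_le_mul_right _ hx1)
    (by rw [hX, pow_add 3 y y]; exact Nat.mul_le_mul hy1 hy1) hineq
    (by
      rw [hX]
      have h1 : 2 * (2 ^ H * 3 ^ (B + J) * 2 ^ H) ≤ 2 ^ (2 * H + x + 1) := by
        calc 2 * (2 ^ H * 3 ^ (B + J) * 2 ^ H) ≤ 2 * (2 ^ H * 2 ^ x * 2 ^ H) := by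
              apply Nat.mul_le_mul_left
              apply Nat.mul_le_mul_right
              exact Nat.mul_le_mul_left _ hx1
          _ = 2 ^ (2 * H + x + 1) := by ring
      have h2 : 2 ^ A ≤ 2 ^ (2 * H + x + 1) := Nat.pow_le_pow_right (by norm_num) (by omega)
      have h3 : 2 ^ (2 * H + x + 2) ≤ 2 ^ n := Nat.pow_le_pow_right (by norm_num) (by omega)
      have h4 : 2 ^ (2 * H + x + 2) = 2 * 2 ^ (2 * H + x + 1) := by ring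
      omega)
  obtain ⟨hc, hd⟩ := hSq.bounds
  refine ⟨c + (x + H + R) / 2, d + (y + y + R) / 2, y, hy1, hy2, by omega, by omega, by omega,
    by omega, ?_⟩
  intro i hi j hj
  exact hbox i hi j hj

/-- Explicit region lemma, base three direction. -/
lemma region3 {A R c d I G n x : ℕ} (hA : 1 ≤ A) (hSq : Sq A R c d) (hI : 1 ≤ I)
    (hG : A + I < G) (hx1 : 3 ^ G ≤ 2 ^ x) (hx2 : 2 ^ x < 2 * 3 ^ G) (hR : 56 * G ≤ R ^ 2)
    (hn : A + I + 2 * x + 2 ≤ n) :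
    ∃ C2 C3 : ℕ, x ≤ C2 ∧ C2 ≤ x + 2 * A ∧ G ≤ 2 * C3 + 1 ∧ 2 * C3 ≤ G + 3 * A + I ∧
      ∀ i < I, ∀ j < G - A, ∃ N, 3 ∣ N ∧ 2 * N < 2 ^ n ∧ cc 2 N = C2 + i ∧ cc 3 N = C3 + j := by
  obtain ⟨hB1, hB2, hB3⟩ := clog_spec (b := 3) (n := 2 ^ A) (by norm_num)
    (Nat.one_lt_two_pow (by omega))
  obtain ⟨B, hB⟩ : ∃ B, B = Nat.clog 3 (2 ^ A) := ⟨_, rfl⟩
  rw [← hB] at hB1 hB2 hB3
  obtain ⟨hy1, hy2, hy3⟩ := clog_spec (b := 3) (n := 2 ^ (A + I)) (by norm_num)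
    (Nat.one_lt_two_pow (by omega))
  obtain ⟨y, hy⟩ : ∃ y, y = Nat.clog 3 (2 ^ (A + I)) := ⟨_, rfl⟩
  rw [← hy] at hy1 hy2 hy3
  have hBA : B ≤ A := by
    have h1 : 3 ^ B < 3 ^ (A + 1) := by
      have : 2 ^ A ≤ 3 ^ A := Nat.pow_le_pow_left (by norm_num) _
      rw [pow_succ]; omega
    have := (Nat.pow_lt_pow_iff_right (by norm_num)).mp h1
    omega
  have hyA : y ≤ A + I := by
    have h1 : 3 ^ y < 3 ^ (A + I + 1) := by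
      have : 2 ^ (A + I) ≤ 3 ^ (A + I) := Nat.pow_le_pow_left (by norm_num) _
      rw [pow_succ]; omega
    have := (Nat.pow_lt_pow_iff_right (by norm_num)).mp h1
    omega
  have hxG : x ≤ 2 * G := by
    have h1 : 2 ^ x < 2 ^ (2 * G + 1) := by
      have h2 : 3 ^ G ≤ 4 ^ G := Nat.pow_le_pow_left (by norm_num) _
      have h3 : (4 : ℕ) ^ G = 2 ^ (2 * G) := by
        rw [show (4 : ℕ) = 2 ^ 2 by norm_num, ← pow_mul]
      rw [pow_succ]; omega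
    have := (Nat.pow_lt_pow_iff_right (by norm_num)).mp h1
    omega
  have hGB : B + (G - B) = G := by omega
  have hTpos : 0 < 3 ^ G := by positivity
  have hQ : 3 ^ y ≤ 3 ^ G := Nat.pow_le_pow_right (by norm_num) (by omega)
  have t1 : 2 * ((3 ^ G / 2 ^ x + 1) * (2 ^ x * x)) ≤ 3 ^ G * (16 * G) := by
    have h1 : 3 ^ G / 2 ^ x ≤ 1 := Nat.div_le_of_le_mul (by omega)
    calc 2 * ((3 ^ G / 2 ^ x + 1) * (2 ^ x * x))
        ≤ 2 * ((1 + 1) * ((2 * 3 ^ G) * (2 * G))) := by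
          apply Nat.mul_le_mul_left
          apply Nat.mul_le_mul (by omega)
          exact Nat.mul_le_mul hx2.le hxG
      _ = 3 ^ G * (16 * G) := by ring
  have t2 : 2 * ((2 ^ x / (2 * 3 ^ (B + (G - B))) + 1) * (2 * 2 ^ x * x)) ≤ 3 ^ G * (16 * G) := by
    rw [hGB]
    have h1 : 2 ^ x / (2 * 3 ^ G) = 0 := Nat.div_eq_of_lt hx2
    rw [h1]
    calc 2 * ((0 + 1) * (2 * 2 ^ x * x)) ≤ 2 * ((0 + 1) * (2 * (2 * 3 ^ G) * (2 * G))) := by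
          apply Nat.mul_le_mul_left
          apply Nat.mul_le_mul_left
          exact Nat.mul_le_mul (Nat.mul_le_mul_left _ hx2.le) hxG
      _ = 3 ^ G * (16 * G) := by ring
  have t3 : 2 * ((3 ^ G / 3 ^ y + 1) * (3 ^ y * (2 * y))) ≤ 3 ^ G * (8 * G) := by
    have h1 : (3 ^ G / 3 ^ y) * 3 ^ y ≤ 3 ^ G := Nat.div_mul_le_self _ _
    have h2 : (3 ^ G / 3 ^ y + 1) * 3 ^ y ≤ 2 * 3 ^ G := by rw [Nat.add_mul, one_mul]; omega
    calc 2 * ((3 ^ G / 3 ^ y + 1) * (3 ^ y * (2 * y))) = ((3 ^ G / 3 ^ y + 1) * 3 ^ y) * (4 * y) := by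
          ring
      _ ≤ (2 * 3 ^ G) * (4 * G) := Nat.mul_le_mul h2 (by omega)
      _ = 3 ^ G * (8 * G) := by ring
  have t4 : 2 * ((3 ^ y / (2 * 2 ^ (A + I)) + 1) * (2 * 3 ^ G * (2 * G))) ≤ 3 ^ G * (16 * G) := by
    have h1 : 3 ^ y / (2 * 2 ^ (A + I)) < 2 := by
      rw [Nat.div_lt_iff_lt_mul (by positivity)]; omega
    calc 2 * ((3 ^ y / (2 * 2 ^ (A + I)) + 1) * (2 * 3 ^ G * (2 * G)))
        ≤ 2 * ((1 + 1) * (2 * 3 ^ G * (2 * G))) := by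
          apply Nat.mul_le_mul_left
          exact Nat.mul_le_mul (by omega) le_rfl
      _ = 3 ^ G * (16 * G) := by ring
  have hineq : 2 * ((3 ^ G / 2 ^ x + 1) * (2 ^ x * x)) +
      2 * ((2 ^ x / (2 * 3 ^ (B + (G - B))) + 1) * (2 * 2 ^ x * x)) +
      (2 * ((3 ^ G / 3 ^ y + 1) * (3 ^ y * (2 * y))) +
      2 * ((3 ^ y / (2 * 2 ^ (A + I)) + 1) * (2 * 3 ^ G * (2 * G)))) ≤ R ^ 2 * 3 ^ G := by
    calc _ ≤ 3 ^ G * (16 * G) + 3 ^ G * (16 * G) + (3 ^ G * (8 * G) + 3 ^ G * (16 * G)) :=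
          Nat.add_le_add (Nat.add_le_add t1 t2) (Nat.add_le_add t3 t4)
      _ = 3 ^ G * (56 * G) := by ring
      _ ≤ 3 ^ G * R ^ 2 := Nat.mul_le_mul_left _ hR
      _ = R ^ 2 * 3 ^ G := by ring
  have hbox := box (A' := n) (X := I) (Y := G - B) (x := x) (k := x) (y := y) (l := G)
    (T := 3 ^ G) hSq hB1 hB3 hI (by omega) hTpos
    (by rw [hGB, pow_add 2 x x]; exact Nat.mul_le_mul hx1 hx1)
    (by rw [pow_add 3 y G]; exact Nat.mul_le_mul_right _ hy1) hineq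
    (by
      rw [hGB]
      have h1 : 2 * (2 ^ (A + I) * 3 ^ G * 3 ^ G) ≤ 2 ^ (A + I + 2 * x + 1) := by
        calc 2 * (2 ^ (A + I) * 3 ^ G * 3 ^ G) ≤ 2 * (2 ^ (A + I) * 2 ^ x * 2 ^ x) := by
              apply Nat.mul_le_mul_left
              exact Nat.mul_le_mul (Nat.mul_le_mul_left _ hx1) hx1
          _ = 2 ^ (A + I + 2 * x + 1) := by ring
      have h2 : 2 ^ A ≤ 2 ^ (A + I + 2 * x + 1) := Nat.pow_le_pow_right (by norm_num) (by omega)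
      have h3 : 2 ^ (A + I + 2 * x + 2) ≤ 2 ^ n := Nat.pow_le_pow_right (by norm_num) hn
      have h4 : 2 ^ (A + I + 2 * x + 2) = 2 * 2 ^ (A + I + 2 * x + 1) := by ring
      omega)
  obtain ⟨hc, hd⟩ := hSq.bounds
  refine ⟨c + (x + x + R) / 2, d + (y + G + R) / 2, by omega, by omega, by omega, by omega, ?_⟩
  intro i hi j hj
  exact hbox i hi j (by omega)

end Pool.Agent.CatVal
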