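import Pool.Agent.CatVal.Range

set_option autoImplicit false

namespace Pool.Agent.CatVal

open Finset

lemma gs_mod {p : ℕ} (hp : 0 < p) (K N : ℕ) : gs p K (2 * N) = gs p K (2 * (N % p ^ K)) := by
  have : 2 * N = 2 * (N % p ^ K) + 2 * p ^ K * (N / p ^ K) := by
    have := Nat.mod_add_div N (p ^ K)
    nlinarith
  conv_lhs => rw [this]
  rw [gs_add_mul hp]

lemma cc_mod_le {p : ℕ} (hp : p.Prime) (K N : ℕ) : cc p (N % p ^ K) ≤ cc p N := by
  obtain ⟨k, hk⟩ : ∃ k, N < p ^ (K + k) := by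
    refine ⟨N, ?_⟩
    calc N < p ^ N := Nat.lt_pow_self hp.one_lt
      _ ≤ p ^ (K + N) := Nat.pow_le_pow_right hp.pos (by omega)
  rw [cc_eq_gs hp hk, gs_add, gs_mod hp.pos,
    cc_eq_gs hp (Nat.mod_lt N (pow_pos hp.pos K))]
  exact Nat.le_add_right _ _

lemma cc2_step (m e : ℕ) (he : e < 2) : cc 2 (2 * m + e) = cc 2 m + e := by
  obtain ⟨k, hk⟩ : ∃ k, m < 2 ^ k := ⟨m, Nat.lt_pow_self (by norm_num)⟩
  have h1 : 2 * m + e < 2 ^ (1 + k) := by rw [pow_add]; omega
  rw [cc_eq_gs Nat.prime_two h1, gs_add, cc_eq_gs Nat.prime_two hk]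
  have h2 : gs 2 1 (2 * (2 * m + e)) = e := by
    unfold gs; simp; omega
  have h3 : 2 * (2 * m + e) / 2 ^ 1 = 2 * m + e := by
    rw [pow_one]; omega
  rw [h2, h3]
  have h4 : gs 2 k (2 * m + e) = gs 2 k (2 * m) := by
    unfold gs
    apply Finset.sum_congr rfl
    intro i _
    rw [pow_succ', ← Nat.div_div_eq_div_mul, ← Nat.div_div_eq_div_mul]
    congr 2
    omega
  rw [h4]; ring

lemma cc2_add_le (m n : ℕ) : cc 2 (m + n) ≤ cc 2 m + cc 2 n := by
  induction m using Nat.strong_induction_on generalizing n with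
  | _ m ih =>
    rcases Nat.eq_zero_or_pos m with rfl | hm
    · simp
    · have hm1 := cc2_step (m / 2) (m % 2) (Nat.mod_lt _ (by norm_num))
      have hn1 := cc2_step (n / 2) (n % 2) (Nat.mod_lt _ (by norm_num))
      rw [Nat.div_add_mod] at hm1 hn1
      have hI := ih (m / 2) (Nat.div_lt_self hm (by norm_num)) (n / 2)
      rcases Nat.mod_two_eq_zero_or_one m with h | h <;>
        rcases Nat.mod_two_eq_zero_or_one n with h' | h'
      · have e : m + n = 2 * (m / 2 + n / 2) + 0 := by omega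
        rw [e, cc2_step _ 0 (by norm_num)]; omega
      · have e : m + n = 2 * (m / 2 + n / 2) + 1 := by omega
        rw [e, cc2_step _ 1 (by norm_num)]; omega
      · have e : m + n = 2 * (m / 2 + n / 2) + 1 := by omega
        rw [e, cc2_step _ 1 (by norm_num)]; omega
      · have e : m + n = 2 * (m / 2 + (n / 2 + 1)) + 0 := by omega
        have hI2 := ih (m / 2) (Nat.div_lt_self hm (by norm_num)) (n / 2 + 1)
        have h1 : cc 2 (n / 2 + 1) ≤ cc 2 (n / 2) + 1 := by
          have h2 : cc 2 (1 + n / 2) ≤ cc 2 1 + cc 2 (n / 2) := by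
            rcases Nat.lt_or_ge 1 m with h3 | h3
            · exact ih 1 h3 _
            · -- `m = 1`, so use the smaller first argument `0`
              have hm' : m = 1 := by omega
              have h5 : ∀ k, cc 2 (1 + k) ≤ cc 2 1 + cc 2 k := by
                intro k
                induction k using Nat.strong_induction_on with
                | _ k ihk =>
                  rcases Nat.mod_two_eq_zero_or_one k with h6 | h6
                  · have e1 : 1 + k = 2 * (k / 2) + 1 := by omega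
                    have e2 : cc 2 k = cc 2 (k / 2) := by
                      have := cc2_step (k / 2) 0 (by norm_num)
                      rw [show 2 * (k / 2) + 0 = k by omega] at this
                      omega
                    have e3 : cc 2 1 = 1 := by
                      have := cc2_step 0 1 (by norm_num)
                      simpa [cc_zero] using this
                    rw [e1, cc2_step _ 1 (by norm_num), e2, e3]; omega
                  · have e1 : 1 + k = 2 * (1 + k / 2) + 0 := by omega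
                    have e2 : cc 2 k = cc 2 (k / 2) + 1 := by
                      have := cc2_step (k / 2) 1 (by norm_num)
                      rw [show 2 * (k / 2) + 1 = k by omega] at this
                      omega
                    have := ihk (k / 2) (by omega)
                    rw [e1, cc2_step _ 0 (by norm_num), e2]; omega
              exact h5 _
          have h4 : cc 2 1 = 1 := by
            have := cc2_step 0 1 (by norm_num)
            simpa [cc_zero] using this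
          rw [add_comm (n / 2) 1]; omega
        rw [e, cc2_step _ 0 (by norm_num)]; omega

/-- `S w = cc 2 (3 ^ w)` at most doubles from one index to the next. -/
lemma S_succ_le (w : ℕ) : cc 2 (3 ^ (w + 1)) ≤ 2 * cc 2 (3 ^ w) := by
  have e : 3 ^ (w + 1) = 3 ^ w + 2 ^ 1 * 3 ^ w := by ring
  rw [e]
  refine (cc2_add_le _ _).trans ?_
  rw [cc_pow_mul Nat.prime_two]; omega

lemma three_pow_two_pow (k : ℕ) : ∃ u, 3 ^ (2 ^ (k + 1)) = 1 + 2 ^ (k + 3) * (2 * u + 1) := by
  induction k with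
  | zero => exact ⟨0, by norm_num⟩
  | succ k ih =>
    obtain ⟨u, hu⟩ := ih
    refine ⟨u + 2 ^ (k + 1) * (2 * u + 1) ^ 2, ?_⟩
    rw [pow_succ 2 (k + 1), pow_mul, hu]
    have e : 2 ^ (k + 1 + 3) = 2 * 2 ^ (k + 3) := by ring
    have e2 : 2 ^ (k + 3) = 4 * 2 ^ (k + 1) := by ring
    rw [e, e2]
    ring

lemma exists_three_pow_add_five (k : ℕ) : ∃ w, 2 ^ (k + 3) ∣ 3 ^ w + 5 := by
  induction k with
  | zero => exact ⟨1, by norm_num⟩
  | succ k ih =>
    obtain ⟨w, m, hm⟩ := ih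
    obtain ⟨u, hu⟩ := three_pow_two_pow k
    rcases Nat.mod_two_eq_zero_or_one m with h | h
    · refine ⟨w, m / 2, ?_⟩
      have e : m = 2 * (m / 2) := by omega
      rw [hm]
      conv_lhs => rw [e]
      ring
    · refine ⟨w + 2 ^ (k + 1), (m + 3 ^ w * (2 * u + 1)) / 2, ?_⟩
      have hodd : (3 ^ w) % 2 = 1 := by
        rw [Nat.pow_mod]; norm_num
      have h3 : (3 ^ w * (2 * u + 1)) % 2 = 1 := by
        rw [Nat.mul_mod, hodd]; omega
      have e : m + 3 ^ w * (2 * u + 1) = 2 * ((m + 3 ^ w * (2 * u + 1)) / 2) := by omega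
      calc 3 ^ (w + 2 ^ (k + 1)) + 5 = (3 ^ w + 5) + 2 ^ (k + 3) * (3 ^ w * (2 * u + 1)) := by
            rw [pow_add, hu]; ring
        _ = 2 ^ (k + 3) * (m + 3 ^ w * (2 * u + 1)) := by rw [hm]; ring
        _ = 2 ^ (k + 3) * (2 * ((m + 3 ^ w * (2 * u + 1)) / 2)) := by rw [← e]
        _ = 2 ^ (k + 1 + 3) * ((m + 3 ^ w * (2 * u + 1)) / 2) := by
            generalize (m + 3 ^ w * (2 * u + 1)) / 2 = z
            ring

/-- The sequence `cc 2 (3 ^ w)` is unbounded. -/
lemma S_unbounded (K w0 : ℕ) : ∃ w, w0 ≤ w ∧ K ≤ cc 2 (3 ^ w) := by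
  obtain ⟨β, hβ⟩ : ∃ β, β = K + 2 * w0 + 3 := ⟨_, rfl⟩
  obtain ⟨w, hw⟩ := exists_three_pow_add_five β
  have hpos : 0 < 2 ^ (β + 3) := by positivity
  have h32 : 32 ≤ 2 ^ (β + 3) := by
    calc 32 = 2 ^ 5 := by norm_num
      _ ≤ 2 ^ (β + 3) := Nat.pow_le_pow_right (by norm_num) (by omega)
  refine ⟨w, ?_, ?_⟩
  · by_contra hlt
    have hlt' : w ≤ w0 := by omega
    have h1 : 2 ^ (β + 3) ≤ 3 ^ w + 5 := Nat.le_of_dvd (by positivity) hw
    have h2 : 3 ^ w ≤ 4 ^ w0 := (Nat.pow_le_pow_right (by norm_num) hlt').trans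
      (Nat.pow_le_pow_left (by norm_num) _)
    have h3 : 2 ^ (β + 3) = 2 ^ (K + 6) * 4 ^ w0 := by
      rw [show (4 : ℕ) = 2 ^ 2 by norm_num, ← pow_mul, ← pow_add]; congr 1; omega
    have h4 : 64 ≤ 2 ^ (K + 6) := by
      calc 64 = 2 ^ 6 := by norm_num
        _ ≤ 2 ^ (K + 6) := Nat.pow_le_pow_right (by norm_num) (by omega)
    have h5 : 64 * 4 ^ w0 ≤ 2 ^ (β + 3) := by rw [h3]; exact Nat.mul_le_mul_right _ h4
    have h6 : 1 ≤ 4 ^ w0 := Nat.one_le_pow _ _ (by norm_num)
    omega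
  · have hmod : 3 ^ w % 2 ^ (β + 3) = 3 + 2 ^ 3 * (2 ^ β - 1) := by
      have h1 : 3 + 2 ^ 3 * (2 ^ β - 1) + 5 = 2 ^ (β + 3) := by
        have : 1 ≤ 2 ^ β := Nat.one_le_two_pow
        rw [pow_add]; omega
      obtain ⟨m, hm⟩ := hw
      have hm1 : 1 ≤ m := by
        rcases Nat.eq_zero_or_pos m with h | h
        · rw [h, mul_zero] at hm; exact absurd hm (Nat.succ_ne_zero _)
        · exact h
      have h2 : 3 ^ w = (3 + 2 ^ 3 * (2 ^ β - 1)) + 2 ^ (β + 3) * (m - 1) := by
        obtain ⟨m', rfl⟩ := Nat.exists_eq_add_of_le hm1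
        rw [Nat.add_sub_cancel_left]
        rw [Nat.mul_add, mul_one] at hm
        omega
      rw [h2, Nat.add_mul_mod_self_left, Nat.mod_eq_of_lt (by omega)]
    have h1 := cc_mod_le Nat.prime_two (β + 3) (3 ^ w)
    rw [hmod, cc_add Nat.prime_two _ (by norm_num), cc_pow_sub_one Nat.prime_two] at h1
    omega

lemma three_pow_dvd (k : ℕ) : (3 : ℤ) ^ (k + 1) ∣ 2 ^ (3 ^ k) + 1 := by
  induction k with
  | zero => norm_num
  | succ k ih =>
    obtain ⟨m, hm⟩ := ih
    have e : (2 : ℤ) ^ (3 ^ (k + 1)) = (2 ^ (3 ^ k)) ^ 3 := by rw [← pow_mul, pow_succ 3 k]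
    have e2 : (2 : ℤ) ^ (3 ^ k) = 3 ^ (k + 1) * m - 1 := by linarith
    rw [e, e2]
    refine ⟨m * (3 * (3 ^ k * m) ^ 2 - 3 * (3 ^ k * m) + 1), ?_⟩
    ring

/-- The sequence `cc 3 (2 ^ x)` is unbounded. -/
lemma C_unbounded (K x0 : ℕ) : ∃ x, x0 ≤ x ∧ K ≤ cc 3 (2 ^ x) := by
  set k := K + x0 with hk
  refine ⟨3 ^ k, ?_, ?_⟩
  · have : k < 3 ^ k := Nat.lt_pow_self (by norm_num)
    omega
  · have h := three_pow_dvd k
    have h' : 3 ^ (k + 1) ∣ 2 ^ (3 ^ k) + 1 := by exact_mod_cast h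
    have hmod : 2 ^ (3 ^ k) % 3 ^ (k + 1) = 3 ^ (k + 1) - 1 := by
      obtain ⟨m, hm⟩ := h'
      have hpos : 0 < 3 ^ (k + 1) := by positivity
      have hm1 : 1 ≤ m := by
        rcases Nat.eq_zero_or_pos m with h | h
        · rw [h, mul_zero] at hm; exact absurd hm (Nat.succ_ne_zero _)
        · exact h
      obtain ⟨m', rfl⟩ := Nat.exists_eq_add_of_le hm1
      have h2 : 2 ^ (3 ^ k) = (3 ^ (k + 1) - 1) + 3 ^ (k + 1) * m' := by
        rw [Nat.mul_add, mul_one] at hm
        omega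
      rw [h2, Nat.add_mul_mod_self_left, Nat.mod_eq_of_lt (by omega)]
    have h1 := cc_mod_le Nat.prime_three (k + 1) (2 ^ (3 ^ k))
    rw [hmod, cc_pow_sub_one Nat.prime_three] at h1
    omega

end Pool.Agent.CatVal
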