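import Pool.Agent.CatVal.Core

set_option autoImplicit false

namespace Pool.Agent.CatVal

open Finset

/-- All pairs of valuations in a full square of side `R` are realised by multiples of `3` below
`2 ^ (A - 1)`. -/
def Sq (A R c d : ℕ) : Prop :=
  ∀ i ≤ R, ∀ j ≤ R, ∃ r, 3 ∣ r ∧ 2 * r < 2 ^ A ∧ cc 2 r = c + i ∧ cc 3 r = d + j

lemma Sq.mono_A {A A' R c d : ℕ} (h : Sq A R c d) (hA : A ≤ A') : Sq A' R c d := by
  intro i hi j hj
  obtain ⟨r, h1, h2, h3, h4⟩ := h i hi j hj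
  exact ⟨r, h1, lt_of_lt_of_le h2 (Nat.pow_le_pow_right (by norm_num) hA), h3, h4⟩

lemma Sq.mono_R {A R R' c d : ℕ} (h : Sq A R c d) (hR : R' ≤ R) : Sq A R' c d :=
  fun i hi j hj => h i (hi.trans hR) j (hj.trans hR)

lemma combine {A R c d A' B I J w2 w3 : ℕ} (hSq : Sq A R c d) (hB : 2 ^ A ≤ 3 ^ B) (hB1 : 1 ≤ B)
    (hM : ∀ i < I, ∀ j < J, ∃ M, 2 ^ A * 3 ^ B ∣ M ∧ 2 * M + 2 ^ A ≤ 2 ^ A' ∧
      cc 2 M ≤ w2 + i ∧ w2 + i ≤ cc 2 M + R ∧ cc 3 M ≤ w3 + j ∧ w3 + j ≤ cc 3 M + R) :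
    ∀ i < I, ∀ j < J, ∃ N, 3 ∣ N ∧ 2 * N < 2 ^ A' ∧ cc 2 N = c + w2 + i ∧
      cc 3 N = d + w3 + j := by
  intro i hi j hj
  obtain ⟨M, ⟨m, rfl⟩, hM2, h1, h2, h3, h4⟩ := hM i hi j hj
  obtain ⟨r, hr3, hr2, hr4, hr5⟩ := hSq (w2 + i - cc 2 (2 ^ A * 3 ^ B * m)) (by omega)
    (w3 + j - cc 3 (2 ^ A * 3 ^ B * m)) (by omega)
  have e2 : cc 2 (r + 2 ^ A * 3 ^ B * m) = cc 2 r + cc 2 (2 ^ A * 3 ^ B * m) := by
    rw [mul_assoc, cc_add Nat.prime_two _ hr2, cc_pow_mul Nat.prime_two]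
  have e3 : cc 3 (r + 2 ^ A * 3 ^ B * m) = cc 3 r + cc 3 (2 ^ A * 3 ^ B * m) := by
    rw [show 2 ^ A * 3 ^ B * m = 3 ^ B * (2 ^ A * m) by ring,
      cc_add Nat.prime_three _ (lt_of_lt_of_le hr2 hB), cc_pow_mul Nat.prime_three]
  refine ⟨r + 2 ^ A * 3 ^ B * m, ?_, by omega, by rw [e2]; omega, by rw [e3]; omega⟩
  apply Dvd.dvd.add hr3
  have : (3 : ℕ) ∣ 3 ^ B := dvd_pow_self 3 (by omega)
  exact Dvd.dvd.mul_right (Dvd.dvd.mul_left this _) _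

lemma clog_spec {b n : ℕ} (hb : 1 < b) (hn : 1 < n) :
    n ≤ b ^ Nat.clog b n ∧ b ^ Nat.clog b n < b * n ∧ 1 ≤ Nat.clog b n := by
  have h1 := Nat.le_pow_clog hb n
  have h2 := Nat.pow_pred_clog_lt_self hb hn
  have h3 : 1 ≤ Nat.clog b n := Nat.clog_pos hb hn
  refine ⟨h1, ?_, h3⟩
  have e : b ^ Nat.clog b n = b * b ^ (Nat.clog b n).pred := by
    rw [← pow_succ']
    congr 1
    exact (Nat.succ_pred_eq_of_pos h3).symm
  rw [e]
  exact Nat.mul_lt_mul_of_pos_left h2 (by omega)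

/-- comparison of exponents through `3 ^ 5 < 2 ^ 8` -/
lemma exp_cmp_58 {u v w : ℕ} (h : 2 ^ u < 2 ^ v * 3 ^ w) : 5 * u < 5 * v + 8 * w := by
  have h1 : (2 ^ u) ^ 5 < (2 ^ v * 3 ^ w) ^ 5 := Nat.pow_lt_pow_left h (by norm_num)
  have h2 : (2 ^ v * 3 ^ w) ^ 5 ≤ 2 ^ (5 * v + 8 * w) := by
    calc (2 ^ v * 3 ^ w) ^ 5 = 2 ^ (5 * v) * (3 ^ 5) ^ w := by
          rw [mul_pow, ← pow_mul, ← pow_mul, ← pow_mul, mul_comm v 5, mul_comm w 5]
      _ ≤ 2 ^ (5 * v) * (2 ^ 8) ^ w := Nat.mul_le_mul_left _ (Nat.pow_le_pow_left (by norm_num) _)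
      _ = 2 ^ (5 * v + 8 * w) := by rw [← pow_mul, ← pow_add]
  have h3 : 2 ^ (5 * u) < 2 ^ (5 * v + 8 * w) := by
    calc 2 ^ (5 * u) = (2 ^ u) ^ 5 := by rw [← pow_mul, mul_comm]
      _ < _ := h1
      _ ≤ _ := h2
  exact (Nat.pow_lt_pow_iff_right (by norm_num)).mp h3

/-- comparison of exponents through `2 ^ 19 < 3 ^ 12` -/
lemma exp_cmp_1219 {u v : ℕ} (h : 3 ^ u < 2 ^ v) : 19 * u < 12 * v := by
  have h1 : (3 ^ u) ^ 19 < (2 ^ v) ^ 19 := Nat.pow_lt_pow_left h (by norm_num)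
  have h2 : (2 ^ v) ^ 19 ≤ 3 ^ (12 * v) := by
    calc (2 ^ v) ^ 19 = (2 ^ 19) ^ v := by rw [← pow_mul, ← pow_mul, mul_comm]
      _ ≤ (3 ^ 12) ^ v := Nat.pow_le_pow_left (by norm_num) _
      _ = 3 ^ (12 * v) := by rw [← pow_mul]
  have h3 : 3 ^ (19 * u) < 3 ^ (12 * v) := by
    calc 3 ^ (19 * u) = (3 ^ u) ^ 19 := by rw [← pow_mul, mul_comm]
      _ < _ := h1
      _ ≤ _ := h2
  exact (Nat.pow_lt_pow_iff_right (by norm_num)).mp h3

/-- comparison of exponents through `3 ^ 5 < 2 ^ 8`, lower bound -/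
lemma exp_cmp_lower {u v : ℕ} (h : 2 ^ v ≤ 3 ^ u) : 5 * v ≤ 8 * u := by
  have h1 : (2 ^ v) ^ 5 ≤ (3 ^ u) ^ 5 := Nat.pow_le_pow_left h _
  have h2 : (3 ^ u) ^ 5 ≤ 2 ^ (8 * u) := by
    calc (3 ^ u) ^ 5 = (3 ^ 5) ^ u := by rw [← pow_mul, ← pow_mul, mul_comm]
      _ ≤ (2 ^ 8) ^ u := Nat.pow_le_pow_left (by norm_num) _
      _ = 2 ^ (8 * u) := by rw [← pow_mul]
  have h3 : 2 ^ (5 * v) ≤ 2 ^ (8 * u) := by
    calc 2 ^ (5 * v) = (2 ^ v) ^ 5 := by rw [← pow_mul, mul_comm]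
      _ ≤ _ := h1
      _ ≤ _ := h2
  exact (Nat.pow_le_pow_iff_right (by norm_num)).mp h3

/-- The numerical inequality needed in the induction step. -/
lemma step_ineq {A R x k y l P Q L E2 E3 T : ℕ} (hA : 100 ≤ A) (hR : 44 * A ≤ R ^ 2)
    (hE2 : 0 < E2) (hP : 0 < P)
    (hT : T = 16 * P) (hk : k ≤ x) (hPE : P < 64 * E2) (hQP : Q ≤ P)
    (hQE : 32 * E3 ≤ Q) (hL : Q * L < 3 * (E3 * T))
    (hx : 5 * x < 13 * A + 46) (hy : 10 * A + 30 ≤ 8 * y)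
    (hn : 19 * (y + l) < 12 * (2 * A + x + 5) + 19) :
    2 * ((T / P + 1) * (P * x)) + 2 * ((P / (2 * E2) + 1) * (P * k)) +
      (2 * ((T / Q + 1) * (Q * (2 * y))) + 2 * ((Q / (2 * E3) + 1) * (2 * L * (2 * l))))
      ≤ R ^ 2 * T := by
  have t1 : 2 * ((T / P + 1) * (P * x)) = 34 * P * x := by
    rw [hT, Nat.mul_div_cancel _ hP]; ring
  have t2 : 2 * ((P / (2 * E2) + 1) * (P * k)) ≤ 64 * P * x := by
    have h1 : P / (2 * E2) < 32 := by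
      rw [Nat.div_lt_iff_lt_mul (by omega)]; omega
    have h2 : (P / (2 * E2) + 1) * (P * k) ≤ 32 * (P * x) :=
      Nat.mul_le_mul (by omega) (Nat.mul_le_mul_left _ hk)
    calc 2 * ((P / (2 * E2) + 1) * (P * k)) ≤ 2 * (32 * (P * x)) := Nat.mul_le_mul_left _ h2
      _ = 64 * P * x := by ring
  have t3 : 2 * ((T / Q + 1) * (Q * (2 * y))) ≤ 68 * P * y := by
    have h1 : (T / Q) * Q ≤ T := Nat.div_mul_le_self _ _
    have h2 : (T / Q + 1) * Q ≤ 17 * P := by rw [Nat.add_mul, one_mul]; omega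
    calc 2 * ((T / Q + 1) * (Q * (2 * y))) = ((T / Q + 1) * Q) * (4 * y) := by ring
      _ ≤ (17 * P) * (4 * y) := Nat.mul_le_mul_right _ h2
      _ = 68 * P * y := by ring
  have t4 : 2 * ((Q / (2 * E3) + 1) * (2 * L * (2 * l))) ≤ 204 * P * l := by
    have h1 : (Q / (2 * E3)) * (2 * E3) ≤ Q := Nat.div_mul_le_self _ _
    have h2 : (Q / (2 * E3)) * L < 24 * P := by
      have h3 : (Q / (2 * E3)) * (2 * E3) * L ≤ Q * L := Nat.mul_le_mul_right _ h1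
      have h4 : (2 * E3) * ((Q / (2 * E3)) * L) < (2 * E3) * (24 * P) := by
        calc (2 * E3) * ((Q / (2 * E3)) * L) = (Q / (2 * E3)) * (2 * E3) * L := by ring
          _ ≤ Q * L := h3
          _ < 3 * (E3 * T) := hL
          _ = (2 * E3) * (24 * P) := by rw [hT]; ring
      exact lt_of_mul_lt_mul_left h4 (Nat.zero_le _)
    have h5 : 2 * L < 3 * P := by
      have h6 : (16 * E3) * (2 * L) < (16 * E3) * (3 * P) := by
        calc (16 * E3) * (2 * L) = (32 * E3) * L := by ring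
          _ ≤ Q * L := Nat.mul_le_mul_right _ hQE
          _ < 3 * (E3 * T) := hL
          _ = (16 * E3) * (3 * P) := by rw [hT]; ring
      exact lt_of_mul_lt_mul_left h6 (Nat.zero_le _)
    have h7 : 2 * ((Q / (2 * E3) + 1) * L) ≤ 51 * P := by
      rw [Nat.add_mul, one_mul]; omega
    calc 2 * ((Q / (2 * E3) + 1) * (2 * L * (2 * l))) = (2 * ((Q / (2 * E3) + 1) * L)) * (4 * l) := by
          ring
      _ ≤ (51 * P) * (4 * l) := Nat.mul_le_mul_right _ h7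
      _ = 204 * P * l := by ring
  have key : 98 * x + 68 * y + 204 * l ≤ 16 * R ^ 2 := by omega
  calc 2 * ((T / P + 1) * (P * x)) + 2 * ((P / (2 * E2) + 1) * (P * k)) +
      (2 * ((T / Q + 1) * (Q * (2 * y))) + 2 * ((Q / (2 * E3) + 1) * (2 * L * (2 * l))))
      ≤ 34 * P * x + 64 * P * x + (68 * P * y + 204 * P * l) := by omega
    _ = P * (98 * x + 68 * y + 204 * l) := by ring
    _ ≤ P * (16 * R ^ 2) := Nat.mul_le_mul_left _ key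
    _ = R ^ 2 * T := by rw [hT]; ring

theorem step {A R c d : ℕ} (hA : 100 ≤ A) (hR : 44 * A ≤ R ^ 2) (hSq : Sq A R c d) :
    ∃ c' d', Sq (8 * A) A c' d' := by
  obtain ⟨hB1, hB2, hB3⟩ := clog_spec (b := 3) (n := 2 ^ A) (by norm_num)
    (Nat.one_lt_two_pow (by omega))
  obtain ⟨B, hB⟩ : ∃ B, B = Nat.clog 3 (2 ^ A) := ⟨_, rfl⟩
  obtain ⟨E2, hE2⟩ : ∃ E2, E2 = 3 ^ (B + (A + 1)) := ⟨_, rfl⟩
  obtain ⟨E3, hE3⟩ : ∃ E3, E3 = 2 ^ (A + (A + 1)) := ⟨_, rfl⟩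
  rw [← hB] at hB1 hB2 hB3
  have hE2pos : 0 < E2 := by rw [hE2]; positivity
  have hE3pos : 0 < E3 := by rw [hE3]; positivity
  obtain ⟨hx1, hx2, hx3⟩ := clog_spec (b := 2) (n := 32 * E2) (by norm_num) (by omega)
  obtain ⟨x, hx⟩ : ∃ x, x = Nat.clog 2 (32 * E2) := ⟨_, rfl⟩
  rw [← hx] at hx1 hx2 hx3
  obtain ⟨hy1, hy2, hy3⟩ := clog_spec (b := 3) (n := 32 * E3) (by norm_num) (by omega)
  obtain ⟨y, hy⟩ : ∃ y, y = Nat.clog 3 (32 * E3) := ⟨_, rfl⟩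
  rw [← hy] at hy1 hy2 hy3
  have hPpos : 0 < 2 ^ x := by positivity
  obtain ⟨T, hTdef⟩ : ∃ T, T = 2 ^ (x + 4) := ⟨_, rfl⟩
  have hT : T = 16 * 2 ^ x := by rw [hTdef, pow_add]; ring
  obtain ⟨hn1, hn2, hn3⟩ := clog_spec (b := 3) (n := E3 * T) (by norm_num)
    (by
      rw [hT]
      calc 1 < 16 := by norm_num
        _ ≤ E3 * (16 * 2 ^ x) := by
          calc 16 = 1 * (16 * 1) := by norm_num
            _ ≤ E3 * (16 * 2 ^ x) := Nat.mul_le_mul hE3pos (Nat.mul_le_mul_left _ hPpos))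
  obtain ⟨n3, hn⟩ : ∃ n3, n3 = Nat.clog 3 (E3 * T) := ⟨_, rfl⟩
  rw [← hn] at hn1 hn2 hn3
  -- `3 E3 ≤ E2`
  have h32 : 2 ^ (A + 1) * 3 ≤ 3 ^ (A + 1) := by
    have e1 : 3 ^ (A + 1) = 3 ^ 3 * 3 ^ (A - 2) := by rw [← pow_add]; congr 1; omega
    have e2 : 2 ^ (A + 1) = 2 ^ 3 * 2 ^ (A - 2) := by rw [← pow_add]; congr 1; omega
    have e3 : 2 ^ (A - 2) ≤ 3 ^ (A - 2) := Nat.pow_le_pow_left (by norm_num) _
    rw [e1, e2]; omega
  have hE23 : 3 * E3 ≤ E2 := by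
    rw [hE2, hE3, pow_add 3 B, pow_add 2 A]
    calc 3 * (2 ^ A * 2 ^ (A + 1)) = 2 ^ A * (2 ^ (A + 1) * 3) := by ring
      _ ≤ 3 ^ B * 3 ^ (A + 1) := Nat.mul_le_mul hB1 h32
      _ = 3 ^ B * 3 ^ (A + 1) := rfl
  have hQP : 3 ^ y ≤ 2 ^ x := by omega
  have hyn : y ≤ n3 := by
    have h1 : 3 ^ y < 3 ^ n3 := by
      calc 3 ^ y < 3 * (32 * E3) := hy2
        _ = E3 * 96 := by ring
        _ ≤ E3 * T := Nat.mul_le_mul_left _ (by omega)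
        _ ≤ 3 ^ n3 := hn1
    exact ((Nat.pow_lt_pow_iff_right (by norm_num)).mp h1).le
  obtain ⟨l, hl⟩ := Nat.exists_eq_add_of_le hyn
  -- bounds on exponents
  have bx : 5 * x < 13 * A + 46 := by
    have h1 : 2 ^ x < 2 ^ (A + 6) * 3 ^ (A + 2) := by
      calc 2 ^ x < 2 * (32 * E2) := hx2
        _ = 64 * 3 ^ (A + 1) * 3 ^ B := by rw [hE2, pow_add]; ring
        _ < 64 * 3 ^ (A + 1) * (3 * 2 ^ A) := Nat.mul_lt_mul_of_pos_left hB2 (by positivity)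
        _ = 2 ^ (A + 6) * 3 ^ (A + 2) := by rw [pow_add, pow_add, pow_add]; ring
    have := exp_cmp_58 h1; omega
  have by' : 10 * A + 30 ≤ 8 * y := by
    have h1 : 2 ^ (2 * A + 6) ≤ 3 ^ y := by
      calc 2 ^ (2 * A + 6) = 32 * E3 := by
            rw [hE3, show 2 * A + 6 = 5 + (A + (A + 1)) by ring, pow_add]; norm_num
        _ ≤ _ := hy1
    have := exp_cmp_lower h1; omega
  have bn : 19 * (y + l) < 12 * (2 * A + x + 5) + 19 := by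
    have h1 : 3 ^ (n3 - 1) < 2 ^ (2 * A + x + 5) := by
      have e1 : 3 ^ n3 = 3 * 3 ^ (n3 - 1) := by
        rw [← pow_succ']; congr 1; omega
      have e2 : E3 * T = 2 ^ (2 * A + x + 5) := by
        rw [hE3, hTdef, ← pow_add]; congr 1; ring
      rw [e1, e2] at hn2
      omega
    have := exp_cmp_1219 h1; omega
  have hkk : 2 * 2 ^ (x - 1) = 2 ^ x := by
    rw [← pow_succ']; congr 1; omega
  have hPE : 2 ^ x < 64 * E2 := by omega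
  have hL : 3 ^ y * 3 ^ l < 3 * (E3 * T) := by rw [← pow_add, ← hl]; exact hn2
  have hineq := step_ineq (A := A) (R := R) (x := x) (k := x - 1) (y := y) (l := l) (P := 2 ^ x)
    (Q := 3 ^ y) (L := 3 ^ l) (E2 := E2) (E3 := E3) (T := T) hA hR hE2pos hPpos hT
    (Nat.sub_le _ _) hPE hQP hy1 hL bx by' bn
  have h2 : 3 ^ (B + (A + 1)) * T ≤ 2 ^ (x + (x - 1)) := by
    rw [← hE2]
    have h3 : 2 * (E2 * T) ≤ 2 * 2 ^ (x + (x - 1)) := by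
      calc 2 * (E2 * T) = (32 * E2) * 2 ^ x := by rw [hT]; ring
        _ ≤ 2 ^ x * 2 ^ x := Nat.mul_le_mul_right _ hx1
        _ = 2 ^ x * (2 * 2 ^ (x - 1)) := by rw [hkk]
        _ = 2 * 2 ^ (x + (x - 1)) := by rw [pow_add]; ring
    exact Nat.le_of_mul_le_mul_left h3 (by norm_num)
  have h3 : 2 ^ (A + (A + 1)) * T ≤ 3 ^ (y + l) := by rw [← hl, ← hE3]; exact hn1
  have hTpos : 0 < T := by omega
  have hcore := core A B (A + 1) (A + 1) x (x - 1) y l T R (by omega) (by omega) hTpos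
    h2 h3 (by
      have e : 2 * 2 ^ (x - 1) * (x - 1) = 2 ^ x * (x - 1) := by rw [hkk]
      rw [e, ← hE2, ← hE3]
      exact hineq)
  rw [← hE2, ← hE3] at hcore
  set w2 := (x + (x - 1) + R) / 2 with hw2
  set w3 := (y + l + R) / 2 with hw3
  have hcomb := combine (A' := 8 * A) (I := A + 1) (J := A + 1) (w2 := w2) (w3 := w3) hSq hB1 hB3
    (by
      intro i hi j hj
      obtain ⟨M, hM1, hM2, hM3, hM4⟩ := hcore i j hi hj
      refine ⟨M, hM1, ?_, ?_, ?_, ?_, ?_⟩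
      · have h5 : 2 * M < 2 ^ (2 * A + 2 * x + 1) := by
          have h6 : 2 * M < E3 * (2 ^ x * 2 ^ x) := by
            calc 2 * M < 2 * (E3 * E2 * T) := by omega
              _ = E3 * ((32 * E2) * 2 ^ x) := by rw [hT]; ring
              _ ≤ E3 * (2 ^ x * 2 ^ x) :=
                Nat.mul_le_mul_left _ (Nat.mul_le_mul_right _ hx1)
          have h7 : E3 * (2 ^ x * 2 ^ x) = 2 ^ (2 * A + 2 * x + 1) := by
            rw [hE3, ← pow_add, ← pow_add]; congr 1; ring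
          omega
        have h8 : 2 ^ A ≤ 2 ^ (2 * A + 2 * x + 1) := Nat.pow_le_pow_right (by norm_num) (by omega)
        have h9 : 2 ^ (2 * A + 2 * x + 2) ≤ 2 ^ (8 * A) :=
          Nat.pow_le_pow_right (by norm_num) (by omega)
        have h10 : 2 ^ (2 * A + 2 * x + 2) = 2 * 2 ^ (2 * A + 2 * x + 1) := by ring
        omega
      · rw [abs_le] at hM3; omega
      · rw [abs_le] at hM3; omega
      · rw [abs_le] at hM4; omega
      · rw [abs_le] at hM4; omega)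
  refine ⟨c + w2, d + w3, ?_⟩
  intro i hi j hj
  obtain ⟨N, hN1, hN2, hN3, hN4⟩ := hcomb i (by omega) j (by omega)
  exact ⟨N, hN1, hN2, by omega, by omega⟩

end Pool.Agent.CatVal
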